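import Pool.Agent.MP_12605b_an.LemmaA

/-!
Assembly: one discrete measure whose singular inner function is a uniform limit of
continuous singular inner functions.
-/

set_option autoImplicit false

open MeasureTheory Set Filter Topology
open scoped ENNReal

namespace Pool.Agent.MP_12605b_an

/-- An index function taking every value infinitely often. -/
def sx (n : ℕ) : ℕ := (Nat.unpair n).1

lemma sx_le (n : ℕ) : sx n ≤ n := Nat.unpair_left_le n

lemma sx_pair (t N : ℕ) : sx (Nat.pair t N) = t := by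
  unfold sx
  rw [Nat.unpair_pair]

/-- The recursive construction. -/
noncomputable def rh (A : Measure ℝ → ℕ → Measure ℝ) : ℕ → Measure ℝ
  | 0 => Measure.dirac 1
  | (n + 1) => A (∑ l : Fin (n + 1), if sx (n + 1) ≤ l.1 then rh A l.1 else 0) (n + 1)
termination_by n => n
decreasing_by exact l.2

lemma rh_zero (A : Measure ℝ → ℕ → Measure ℝ) : rh A 0 = Measure.dirac 1 := by
  rw [rh]

lemma rh_succ (A : Measure ℝ → ℕ → Measure ℝ) (n : ℕ) :
    rh A (n + 1) = A (∑ l ∈ Finset.Ico (sx (n + 1)) (n + 1), rh A l) (n + 1) := by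
  rw [rh]
  congr 1
  rw [Fin.sum_univ_eq_sum_range (fun l => if sx (n + 1) ≤ l then rh A l else 0) (n + 1),
    ← Finset.sum_filter]
  apply Finset.sum_congr _ (fun _ _ => rfl)
  ext l
  simp only [Finset.mem_filter, Finset.mem_range, Finset.mem_Ico]
  omega

lemma regroup (ρ : ℕ → Measure ℝ) (t : ℕ → ℕ) (ht0 : t 0 = 0) (ht : StrictMono t) :
    Measure.sum ρ = Measure.sum (fun k => ∑ l ∈ Finset.Ico (t k) (t (k + 1)), ρ l) := by
  ext S hS
  rw [Measure.sum_apply _ hS, Measure.sum_apply _ hS]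
  have h1 : Tendsto (fun n => ∑ l ∈ Finset.range n, ρ l S) atTop (𝓝 (∑' l, ρ l S)) :=
    ENNReal.tendsto_nat_tsum _
  have h2 := h1.comp ht.tendsto_atTop
  have h3 : Tendsto (fun n => ∑ k ∈ Finset.range n, (∑ l ∈ Finset.Ico (t k) (t (k + 1)), ρ l) S) atTop
      (𝓝 (∑' k, (∑ l ∈ Finset.Ico (t k) (t (k + 1)), ρ l) S)) := ENNReal.tendsto_nat_tsum _
  refine tendsto_nhds_unique h2 (h3.congr (fun n => ?_))
  show ∑ k ∈ Finset.range n, (∑ l ∈ Finset.Ico (t k) (t (k + 1)), ρ l) S =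
    ∑ l ∈ Finset.range (t n), ρ l S
  induction n with
  | zero => simp [ht0]
  | succ n ih =>
    rw [Finset.sum_range_succ, ih, Measure.finsetSum_apply,
      Finset.sum_range_add_sum_Ico _ (ht.monotone (Nat.le_succ n))]

theorem main_exists : ∃ μ : Measure ℝ, Disc μ ∧ μ ≠ 0 ∧ ∀ δ : ℝ, 0 < δ → ∃ ν : Measure ℝ, Cts ν ∧
    ∀ z : ℂ, ‖z‖ < 1 → ‖SI μ z - SI ν z‖ ≤ δ := by
  have hpi := Real.pi_gt_three
  have H : ∀ (α : Measure ℝ) (n : ℕ), ∃ ρ ν : Measure ℝ, Disc α → (Disc ρ ∧ Cts ν ∧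
      ρ univ ≤ ENNReal.ofReal ((1/2 : ℝ)^n) ∧ ν univ ≤ α univ + ENNReal.ofReal ((1/2 : ℝ)^n) ∧
      ∀ z : ℂ, ‖z‖ < 1 → ‖SI (α + ρ) z - SI ν z‖ ≤ (1/2 : ℝ)^n) := by
    intro α n
    by_cases hα : Disc α
    · obtain ⟨ρ, ν, h⟩ := lemmaA hα (show (0:ℝ) < (1/2)^n by positivity)
      exact ⟨ρ, ν, fun _ => h⟩
    · exact ⟨0, 0, fun h => absurd h hα⟩
  choose A B hAB using H
  obtain ⟨ρ, hρ⟩ : ∃ ρ : ℕ → Measure ℝ, ρ = rh A := ⟨_, rfl⟩
  have hρ0 : ρ 0 = Measure.dirac 1 := by rw [hρ, rh_zero]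
  have hρs : ∀ n, ρ (n + 1) = A (∑ l ∈ Finset.Ico (sx (n + 1)) (n + 1), ρ l) (n + 1) := by
    intro n
    rw [hρ]
    exact rh_succ A n
  have hD : ∀ n, Disc (ρ n) := by
    intro n
    induction n using Nat.strong_induction_on with
    | _ n ih =>
      rcases n with _ | n
      · rw [hρ0]
        refine ⟨inferInstance, ?_, {1}, countable_singleton 1, ?_⟩
        · rw [Measure.dirac_apply' _ measurableSet_Ioo.compl]
          apply indicator_of_notMem
          simp only [mem_compl_iff, not_not]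
          constructor <;> linarith
        · rw [Measure.dirac_apply' _ (measurableSet_singleton _).compl]
          apply indicator_of_notMem
          simp
      · rw [hρs n]
        refine (hAB _ (n + 1) (Disc_finset _ ?_)).1
        intro l hl
        exact ih l (Finset.mem_Ico.1 hl).2
  have hblock : ∀ n, Disc (∑ l ∈ Finset.Ico (sx n) n, ρ l) := fun n => Disc_finset _ (fun l _ => hD l)
  have hρeq : ∀ n, 1 ≤ n → ρ n = A (∑ l ∈ Finset.Ico (sx n) n, ρ l) n := by
    intro n hn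
    obtain ⟨m, rfl⟩ : ∃ m, n = m + 1 := ⟨n - 1, by omega⟩
    exact hρs m
  obtain ⟨β, hβ⟩ : ∃ β : ℕ → Measure ℝ, β = fun n => B (∑ l ∈ Finset.Ico (sx n) n, ρ l) n := ⟨_, rfl⟩
  have hspec : ∀ n, 1 ≤ n → (ρ n univ ≤ ENNReal.ofReal ((1/2 : ℝ)^n) ∧ Cts (β n) ∧
      β n univ ≤ (∑ l ∈ Finset.Ico (sx n) (n + 1), ρ l) univ + ENNReal.ofReal ((1/2 : ℝ)^n) ∧
      ∀ z : ℂ, ‖z‖ < 1 → ‖SI (∑ l ∈ Finset.Ico (sx n) (n + 1), ρ l) z - SI (β n) z‖ ≤ (1/2 : ℝ)^n) := by
    intro n hn
    have h := hAB _ n (hblock n)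
    rw [← hρeq n hn] at h
    obtain ⟨-, h2, h3, h4, h5⟩ := h
    rw [hβ]
    refine ⟨h3, h2, ?_, ?_⟩
    · refine h4.trans (add_le_add ?_ le_rfl)
      rw [Finset.sum_Ico_succ_top (sx_le n), Measure.add_apply]
      exact le_self_add
    · intro z hz
      rw [Finset.sum_Ico_succ_top (sx_le n)]
      exact h5 z hz
  have hρu : ∀ n, ρ n univ ≤ ENNReal.ofReal ((1/2 : ℝ)^n) := by
    intro n
    rcases n with _ | n
    · rw [hρ0]
      simp
    · exact (hspec (n + 1) (by omega)).1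
  have hgeo : HasSum (fun n : ℕ => (1/2 : ℝ)^n) 2 := hasSum_geometric_two
  have hμu : Measure.sum ρ univ ≤ ENNReal.ofReal 2 :=
    sum_univ_le (fun i => by positivity) hgeo hρu
  have hμf : IsFiniteMeasure (Measure.sum ρ) := finite_of_le hμu
  refine ⟨Measure.sum ρ, Disc_sum hD hμf, ?_, ?_⟩
  · intro h0
    have h1 := Measure.le_sum ρ 0 univ
    rw [h0, hρ0] at h1
    simp at h1
  · intro δ hδ
    obtain ⟨j, hj⟩ := exists_pow_lt_of_lt_one (half_pos hδ) (show (1/2 : ℝ) < 1 by norm_num)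
    obtain ⟨t, htdef⟩ : ∃ t : ℕ → ℕ, t = fun k =>
      Nat.rec 0 (fun k tk => Nat.pair tk (max tk (j + 1 + k)) + 1) k := ⟨_, rfl⟩
    have ht0 : t 0 = 0 := congrFun htdef 0
    obtain ⟨i, hi⟩ : ∃ i : ℕ → ℕ, i = fun k => Nat.pair (t k) (max (t k) (j + 1 + k)) := ⟨_, rfl⟩
    have hts : ∀ k, t (k + 1) = i k + 1 := by
      intro k
      rw [hi, htdef]
    have hsi : ∀ k, sx (i k) = t k := by
      intro k
      rw [hi]
      exact sx_pair _ _
    have hi1 : ∀ k, j + 1 + k ≤ i k := by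
      intro k
      rw [hi]
      exact (le_max_right _ _).trans (Nat.right_le_pair _ _)
    have hti : ∀ k, t k ≤ i k := by
      intro k
      rw [← hsi k]
      exact sx_le _
    have htm : StrictMono t := by
      apply strictMono_nat_of_lt_succ
      intro k
      rw [hts k]
      exact Nat.lt_succ_of_le (hti k)
    have hre := regroup ρ t ht0 htm
    have hblk : ∀ k, ∑ l ∈ Finset.Ico (sx (i k)) (i k + 1), ρ l = ∑ l ∈ Finset.Ico (t k) (t (k + 1)), ρ l := by
      intro k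
      rw [hsi, hts]
    have hsp : ∀ k, _ := fun k => hspec (i k) (by have := hi1 k; omega)
    have hpow : ∀ k, (1/2 : ℝ)^(i k) ≤ (1/2)^j * (1/2)^k := by
      intro k
      rw [← pow_add]
      apply pow_le_pow_of_le_one (by norm_num) (by norm_num)
      have := hi1 k
      omega
    have hpow2 : ∀ k, (1/2 : ℝ)^(i k) ≤ (1/2)^k := by
      intro k
      apply pow_le_pow_of_le_one (by norm_num) (by norm_num)
      have := hi1 k
      omega
    have hνu : Measure.sum (fun k => β (i k)) univ ≤ Measure.sum ρ univ + ENNReal.ofReal 2 := by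
      rw [Measure.sum_apply _ MeasurableSet.univ]
      calc ∑' k, β (i k) univ ≤ ∑' k, ((∑ l ∈ Finset.Ico (t k) (t (k + 1)), ρ l) univ +
            ENNReal.ofReal ((1/2 : ℝ)^k)) := by
            apply ENNReal.tsum_le_tsum
            intro k
            refine (hsp k).2.2.1.trans ?_
            rw [hblk k]
            exact add_le_add le_rfl (ENNReal.ofReal_le_ofReal (hpow2 k))
        _ = Measure.sum ρ univ + ENNReal.ofReal 2 := by
            have h2 : ∑' k : ℕ, ENNReal.ofReal ((1/2 : ℝ)^k) = ENNReal.ofReal 2 := by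
              rw [← ENNReal.ofReal_tsum_of_nonneg (fun i => by positivity) hgeo.summable, hgeo.tsum_eq]
            rw [ENNReal.tsum_add, hre, Measure.sum_apply _ MeasurableSet.univ, h2]
    have hνf : IsFiniteMeasure (Measure.sum (fun k => β (i k))) :=
      ⟨lt_of_le_of_lt hνu (ENNReal.add_lt_top.2 ⟨measure_lt_top _ _, ENNReal.ofReal_lt_top⟩)⟩
    refine ⟨Measure.sum (fun k => β (i k)), Cts_sum (fun k => (hsp k).2.1) hνf, ?_⟩
    intro z hz
    rw [hre] at hμf ⊢
    have hs := hgeo.mul_left ((1/2 : ℝ)^j)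
    refine (SI_sum_diff hμf hνf hz hs (fun k => by positivity) (fun k => ?_)).trans ?_
    · rw [← hblk k]
      exact ((hsp k).2.2.2 z hz).trans (hpow k)
    · linarith

end Pool.Agent.MP_12605b_an
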