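import Pool.Agent.MP_12605b_an.Cauchy

/-!
Sums of measures, and classes of discrete and of continuous singular measures.
-/

set_option autoImplicit false

open MeasureTheory Set Filter Topology
open scoped ENNReal

namespace Pool.Agent.MP_12605b_an

/-- Finite discrete measures carried by `(0, 2π)`. -/
def Disc (α : Measure ℝ) : Prop :=
  IsFiniteMeasure α ∧ α (Ioo 0 (2 * Real.pi))ᶜ = 0 ∧ ∃ D : Set ℝ, D.Countable ∧ α Dᶜ = 0

/-- Finite continuous singular measures carried by `(0, 2π)`. -/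
def Cts (ν : Measure ℝ) : Prop :=
  IsFiniteMeasure ν ∧ ν (Ioo 0 (2 * Real.pi))ᶜ = 0 ∧ ν ⟂ₘ volume ∧ ∀ x, ν {x} = 0

lemma sum_univ_le {ι : Type*} {μ : ι → Measure ℝ} {x : ι → ℝ} {c : ℝ} (hx : ∀ i, 0 ≤ x i)
    (hs : HasSum x c) (h : ∀ i, μ i univ ≤ ENNReal.ofReal (x i)) :
    Measure.sum μ univ ≤ ENNReal.ofReal c := by
  rw [Measure.sum_apply _ MeasurableSet.univ, ← hs.tsum_eq, ENNReal.ofReal_tsum_of_nonneg hx hs.summable]
  exact ENNReal.tsum_le_tsum h

lemma sum_null {ι : Type*} {μ : ι → Measure ℝ} {S : Set ℝ} (hS : MeasurableSet S)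
    (h : ∀ i, μ i S = 0) : Measure.sum μ S = 0 := by
  rw [Measure.sum_apply _ hS]
  simp [h]

lemma Disc_sum {ι : Type*} [Countable ι] {μ : ι → Measure ℝ} (h : ∀ i, Disc (μ i))
    (hf : IsFiniteMeasure (Measure.sum μ)) : Disc (Measure.sum μ) := by
  refine ⟨hf, sum_null measurableSet_Ioo.compl (fun i => (h i).2.1), ?_⟩
  choose D hDc hD using fun i => (h i).2.2
  have hc : (⋃ i, D i).Countable := countable_iUnion hDc
  refine ⟨⋃ i, D i, hc, sum_null hc.measurableSet.compl (fun i => ?_)⟩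
  exact measure_mono_null (compl_subset_compl.2 (subset_iUnion D i)) (hD i)

lemma Cts_sum {ι : Type*} [Countable ι] {μ : ι → Measure ℝ} (h : ∀ i, Cts (μ i))
    (hf : IsFiniteMeasure (Measure.sum μ)) : Cts (Measure.sum μ) := by
  refine ⟨hf, sum_null measurableSet_Ioo.compl (fun i => (h i).2.1), ?_, ?_⟩
  · rw [Measure.MutuallySingular.sum_left]
    exact fun i => (h i).2.2.1
  · intro x
    exact sum_null (measurableSet_singleton x) (fun i => (h i).2.2.2 x)

lemma Disc_add {μ ν : Measure ℝ} (h : Disc μ) (h' : Disc ν) : Disc (μ + ν) := by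
  obtain ⟨a1, a2, D, a3, a4⟩ := h
  obtain ⟨b1, b2, E, b3, b4⟩ := h'
  refine ⟨inferInstance, ?_, D ∪ E, a3.union b3, ?_⟩
  · rw [Measure.add_apply, a2, b2, add_zero]
  · rw [Measure.add_apply]
    rw [measure_mono_null (compl_subset_compl.2 subset_union_left) a4,
      measure_mono_null (compl_subset_compl.2 subset_union_right) b4, add_zero]

lemma Disc_zero : Disc 0 := ⟨inferInstance, by simp, ∅, countable_empty, by simp⟩

lemma Disc_finset {ι : Type*} (s : Finset ι) {μ : ι → Measure ℝ} (h : ∀ i ∈ s, Disc (μ i)) :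
    Disc (∑ i ∈ s, μ i) := by
  classical
  induction s using Finset.induction_on with
  | empty => simpa using Disc_zero
  | insert a s ha ih =>
    rw [Finset.sum_insert ha]
    exact Disc_add (h a (Finset.mem_insert_self a s)) (ih (fun i hi => h i (Finset.mem_insert_of_mem hi)))

lemma Cts_add {μ ν : Measure ℝ} (h : Cts μ) (h' : Cts ν) : Cts (μ + ν) := by
  obtain ⟨a1, a2, a3, a4⟩ := h
  obtain ⟨b1, b2, b3, b4⟩ := h'
  refine ⟨inferInstance, ?_, a3.add_left b3, ?_⟩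
  · rw [Measure.add_apply, a2, b2, add_zero]
  · intro x
    rw [Measure.add_apply, a4, b4, add_zero]

lemma SI_sum_tendsto {ι : Type*} {μ : ι → Measure ℝ} (hf : IsFiniteMeasure (Measure.sum μ))
    {z : ℂ} (hz : ‖z‖ < 1) :
    Tendsto (fun s : Finset ι => SI (∑ i ∈ s, μ i) z) atTop (𝓝 (SI (Measure.sum μ) z)) := by
  have hint : Integrable (ker z) (Measure.sum μ) := ker_int hz _
  have h1 := hasSum_integral_measure hint
  unfold SI
  refine (Complex.continuous_exp.tendsto _).comp ?_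
  have h2 : Tendsto (fun s : Finset ι => -∑ i ∈ s, ∫ t, ker z t ∂(μ i)) atTop
      (𝓝 (-∫ t, ker z t ∂(Measure.sum μ))) := Tendsto.neg h1
  refine h2.congr (fun s => ?_)
  rw [integral_finsetSum_measure]
  intro i _
  exact hint.mono_measure (Measure.le_sum _ _)

lemma SI_finset {ι : Type*} (s : Finset ι) {μ : ι → Measure ℝ} (h : ∀ i ∈ s, IsFiniteMeasure (μ i))
    {z : ℂ} (hz : ‖z‖ < 1) : SI (∑ i ∈ s, μ i) z = ∏ i ∈ s, SI (μ i) z := by
  unfold SI
  rw [integral_finsetSum_measure, ← Finset.sum_neg_distrib, Complex.exp_sum]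
  intro i hi
  have := h i hi
  exact ker_int hz _

lemma prod_diff {ι : Type*} (s : Finset ι) (x y : ι → ℂ) (hx : ∀ i ∈ s, ‖x i‖ ≤ 1)
    (hy : ∀ i ∈ s, ‖y i‖ ≤ 1) : ‖∏ i ∈ s, x i - ∏ i ∈ s, y i‖ ≤ ∑ i ∈ s, ‖x i - y i‖ := by
  classical
  induction s using Finset.induction_on with
  | empty => simp
  | insert a s ha ih =>
    rw [Finset.prod_insert ha, Finset.prod_insert ha, Finset.sum_insert ha]
    have e : x a * ∏ i ∈ s, x i - y a * ∏ i ∈ s, y i =
        (x a - y a) * ∏ i ∈ s, x i + y a * (∏ i ∈ s, x i - ∏ i ∈ s, y i) := by ring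
    rw [e]
    refine (norm_add_le _ _).trans ?_
    rw [norm_mul, norm_mul]
    have h1 : ‖∏ i ∈ s, x i‖ ≤ 1 := by
      rw [norm_prod]
      exact Finset.prod_le_one (fun i _ => norm_nonneg _)
        (fun i hi => hx i (Finset.mem_insert_of_mem hi))
    have h2 := ih (fun i hi => hx i (Finset.mem_insert_of_mem hi))
      (fun i hi => hy i (Finset.mem_insert_of_mem hi))
    have h3 := hy a (Finset.mem_insert_self a s)
    apply add_le_add
    · calc ‖x a - y a‖ * ‖∏ i ∈ s, x i‖ ≤ ‖x a - y a‖ * 1 := by gcongr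
        _ = _ := mul_one _
    · calc ‖y a‖ * ‖∏ i ∈ s, x i - ∏ i ∈ s, y i‖ ≤ 1 * ∑ i ∈ s, ‖x i - y i‖ := by gcongr
        _ = _ := one_mul _

lemma SI_sum_diff {ι : Type*} {μ ν : ι → Measure ℝ} (hμ : IsFiniteMeasure (Measure.sum μ))
    (hν : IsFiniteMeasure (Measure.sum ν)) {z : ℂ} (hz : ‖z‖ < 1) {ε : ι → ℝ} {c : ℝ}
    (hs : HasSum ε c) (hε : ∀ i, 0 ≤ ε i) (h : ∀ i, ‖SI (μ i) z - SI (ν i) z‖ ≤ ε i) :
    ‖SI (Measure.sum μ) z - SI (Measure.sum ν) z‖ ≤ c := by
  have hμi : ∀ i, IsFiniteMeasure (μ i) := fun i =>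
    ⟨(Measure.le_sum μ i univ).trans_lt (measure_lt_top _ _)⟩
  have hνi : ∀ i, IsFiniteMeasure (ν i) := fun i =>
    ⟨(Measure.le_sum ν i univ).trans_lt (measure_lt_top _ _)⟩
  have h1 := ((SI_sum_tendsto hμ hz).sub (SI_sum_tendsto hν hz)).norm
  refine le_of_tendsto h1 (Eventually.of_forall (fun s => ?_))
  rw [SI_finset s (fun i _ => hμi i) hz, SI_finset s (fun i _ => hνi i) hz]
  refine (prod_diff s _ _ (fun i _ => ?_) (fun i _ => ?_)).trans ?_
  · have := hμi i
    exact SI_norm_le hz _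
  · have := hνi i
    exact SI_norm_le hz _
  · exact (Finset.sum_le_sum (fun i _ => h i)).trans (sum_le_hasSum s (fun i _ => hε i) hs)

end Pool.Agent.MP_12605b_an
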