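import Pool.Agent.MP_12605b_an.GStep
import Pool.Agent.MP_12605b_an.Sums

/-!
The single atom lemma.
-/

set_option autoImplicit false

open MeasureTheory Set Filter Topology
open scoped ENNReal

namespace Pool.Agent.MP_12605b_an

lemma bad_congr {h h' : ℝ → ℝ} {K : Set ℝ} {ε : ℝ}
    (hh : ∀ θ ∈ Ioo 0 (2 * Real.pi) \ K, h θ = h' θ) : bad h K ε = bad h' K ε := by
  ext θ
  constructor
  · rintro ⟨h1, h2⟩
    exact ⟨h1, fun m => by rw [← hh θ h1]; exact h2 m⟩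
  · rintro ⟨h1, h2⟩
    exact ⟨h1, fun m => by rw [hh θ h1]; exact h2 m⟩

lemma bad_mono {h : ℝ → ℝ} {K : Set ℝ} {ε ε' : ℝ} (hε : ε ≤ ε') : bad h K ε' ⊆ bad h K ε :=
  fun _ hθ => ⟨hθ.1, fun m => hε.trans (hθ.2 m)⟩

lemma fld_add {μ ν : Measure ℝ} {θ : ℝ} (h : Integrable (fun t => ck (t - θ)) μ)
    (h' : Integrable (fun t => ck (t - θ)) ν) : fld (μ + ν) θ = fld μ θ + fld ν θ := by
  unfold fld
  exact integral_add_measure h h'

/-- The invariant at a stage of the construction. -/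
def Inv (p q ε b : ℝ) (σ ν : Measure ℝ) (K : Set ℝ) : Prop :=
  IsFiniteMeasure σ ∧ IsFiniteMeasure ν ∧ IsCompact K ∧ K ⊆ Ioo 0 (2 * Real.pi) ∧ volume K = 0 ∧
    σ Kᶜ = 0 ∧ ν Kᶜ = 0 ∧ bad (fun θ => fld ν θ - fld σ θ) K ε ⊆ Ioo p q ∧
    volume.real (bad (fun θ => fld ν θ - fld σ θ) K ε) ≤ b

/-- Increment data. -/
def Inc (M : ℝ) (ρ ν : Measure ℝ) : Prop :=
  Disc ρ ∧ Cts ν ∧ ρ univ ≤ ENNReal.ofReal M ∧ ν univ ≤ ENNReal.ofReal M

lemma sing_of {ν : Measure ℝ} {K : Set ℝ} (hK : IsCompact K) (hK0 : volume K = 0) (hν : ν Kᶜ = 0) :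
    ν ⟂ₘ volume :=
  ⟨Kᶜ, hK.isClosed.isOpen_compl.measurableSet, hν, by rwa [compl_compl]⟩

lemma compl_null {ν : Measure ℝ} {K L : Set ℝ} (hKL : K ⊆ L) (hν : ν Kᶜ = 0) : ν Lᶜ = 0 :=
  measure_mono_null (compl_subset_compl.2 hKL) hν

lemma step_exists {ε : ℝ} (hε : 0 < ε) : ∃ κ C : ℝ, 0 < κ ∧ κ ≤ 1 ∧ 0 < C ∧
    ∀ (p q ε₁ η b : ℝ) (σ ν : Measure ℝ) (K : Set ℝ), 0 < p → q < 2 * Real.pi → q - p ≤ Real.pi →
      ε ≤ ε₁ → 0 < η → Inv p q ε₁ b σ ν K →
      ∃ (ρ' ν' : Measure ℝ) (K' : Set ℝ), Inc (C * (b + η)) ρ' ν' ∧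
        Inv p q (ε₁ + η) ((1 - κ) * b + η) (σ + ρ') (ν + ν') (K ∪ K') := by
  obtain ⟨κ, C, hκ, hκ1, hC, H⟩ := greedy hε
  refine ⟨κ, C, hκ, hκ1, hC, ?_⟩
  rintro p q ε₁ η b σ ν K hp hq hpq hε₁ hη ⟨i1, i2, i3, i4, i5, i6, i7, i8, i9⟩
  have hcont : ContinuousOn (fun θ => fld ν θ - fld σ θ) (Ioo 0 (2 * Real.pi) \ K) :=
    (fld_cont i3 i4 i7).sub (fld_cont i3 i4 i6)
  obtain ⟨ρ', ν', K', g1, g2, g3, g4, g5, g6, g7, g8, g9, g10, g11, g12, g13⟩ :=
    H p q K (fun θ => fld ν θ - fld σ θ) ε₁ η hp hq hpq i3 hcont hε₁ hη i8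
  have hpqs : Ioo p q ⊆ Ioo 0 (2 * Real.pi) := Ioo_subset_Ioo hp.le hq.le
  have hK's : K' ⊆ Ioo 0 (2 * Real.pi) := g4.trans hpqs
  have hM : C * (volume.real (bad (fun θ => fld ν θ - fld σ θ) K ε₁) + η) ≤ C * (b + η) := by
    gcongr
  refine ⟨ρ', ν', K', ⟨⟨g1, compl_null hK's g6, g8⟩, ⟨g2, compl_null hK's g7, sing_of g3 g5 g7, g9⟩,
    g10.trans (ENNReal.ofReal_le_ofReal hM), g11.trans (ENNReal.ofReal_le_ofReal hM)⟩, ?_⟩
  have hcongr : bad (fun θ => fld (ν + ν') θ - fld (σ + ρ') θ) (K ∪ K') (ε₁ + η) =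
      bad (fun θ => (fld ν θ - fld σ θ) + (fld ν' θ - fld ρ' θ)) (K ∪ K') (ε₁ + η) := by
    apply bad_congr
    intro θ hθ
    have hK1 : θ ∉ K := fun h => hθ.2 (Or.inl h)
    have hK2 : θ ∉ K' := fun h => hθ.2 (Or.inr h)
    have hθI := Ioo_subset_Icc_self hθ.1
    show fld (ν + ν') θ - fld (σ + ρ') θ = (fld ν θ - fld σ θ) + (fld ν' θ - fld ρ' θ)
    rw [fld_add (ck_integrable' i3 i4 i7 hθI hK1) (ck_integrable' g3 hK's g7 hθI hK2),
      fld_add (ck_integrable' i3 i4 i6 hθI hK1) (ck_integrable' g3 hK's g6 hθI hK2)]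
    ring
  refine ⟨inferInstance, inferInstance, i3.union g3, union_subset i4 hK's, ?_, ?_, ?_, ?_, ?_⟩
  · rw [measure_union_null_iff]
    exact ⟨i5, g5⟩
  · rw [Measure.add_apply, compl_null subset_union_left i6, compl_null subset_union_right g6, add_zero]
  · rw [Measure.add_apply, compl_null subset_union_left i7, compl_null subset_union_right g7, add_zero]
  · rw [hcongr]
    exact g12
  · rw [hcongr]
    refine g13.trans ?_
    have : (1 - κ) * volume.real (bad (fun θ => fld ν θ - fld σ θ) K ε₁) ≤ (1 - κ) * b :=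
      mul_le_mul_of_nonneg_left i9 (by linarith)
    linarith

/-- The starting configuration: an atom against a tiny Cantor measure. -/
lemma start {a c ε δ : ℝ} (ha : a ∈ Ioo 0 (2 * Real.pi)) (hc : 0 ≤ c) (hε : 0 < ε) (hδ : 0 < δ) :
    ∃ (p q : ℝ) (ν : Measure ℝ) (K : Set ℝ), 0 < p ∧ q < 2 * Real.pi ∧ q - p ≤ Real.pi ∧
      Cts ν ∧ ν univ ≤ ENNReal.ofReal c ∧ Inv p q ε δ (ENNReal.ofReal c • Measure.dirac a) ν K := by
  have hpi := Real.pi_pos
  obtain ⟨d, hd⟩ : ∃ d : ℝ, d = min (min (a / 2) ((2 * Real.pi - a) / 2)) (min (δ / 2) 1) := ⟨_, rfl⟩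
  have hd0 : 0 < d := by
    rw [hd]
    have h1 := ha.1
    have h2 := ha.2
    have h3 : 0 < 2 * Real.pi - a := by linarith
    positivity
  have hd1 : d ≤ a / 2 := hd ▸ (min_le_left _ _).trans (min_le_left _ _)
  have hd2 : d ≤ (2 * Real.pi - a) / 2 := hd ▸ (min_le_left _ _).trans (min_le_right _ _)
  have hd3 : d ≤ δ / 2 := hd ▸ (min_le_right _ _).trans (min_le_left _ _)
  have hd4 : d ≤ 1 := hd ▸ (min_le_right _ _).trans (min_le_right _ _)
  have ha1 := ha.1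
  have ha2 := ha.2
  have hpi3 := Real.pi_gt_three
  have hIs : Icc (a - d/2) (a + d/2) ⊆ Ioo 0 (2 * Real.pi) := by
    intro x hx
    constructor
    · linarith [hx.1]
    · linarith [hx.2]
  obtain ⟨c₀, hc₀, hsep⟩ := sep (K := Icc (a - d/2) (a + d/2)) (L := Icc 0 (2 * Real.pi) \ Ioo (a - d) (a + d))
    isCompact_Icc (isCompact_Icc.diff isOpen_Ioo) hIs sdiff_subset
    (disjoint_left.2 (fun x hx hx' => hx'.2 ⟨by linarith [hx.1], by linarith [hx.2]⟩))
  obtain ⟨r, hr⟩ : ∃ r : ℝ, r = min (d / 2) (ε * c₀^2 / (c + 1)) := ⟨_, rfl⟩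
  have hr0 : 0 < r := by rw [hr]; positivity
  have hr1 : r ≤ d / 2 := hr ▸ min_le_left _ _
  have hr2 : r ≤ ε * c₀^2 / (c + 1) := hr ▸ min_le_right _ _
  obtain ⟨γ, C₀, hγp, hCc, hCs, hC0, hγC, hγa⟩ := exists_cantor a r hr0
  have hCI : C₀ ⊆ Icc (a - d/2) (a + d/2) := by
    intro x hx
    have := hCs hx
    constructor
    · linarith [this.1]
    · linarith [this.2]
  have haI : a ∈ Icc (a - d/2) (a + d/2) := ⟨by linarith, by linarith⟩
  have hKc : IsCompact ({a} ∪ C₀) := isCompact_singleton.union hCc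
  have hKI : {a} ∪ C₀ ⊆ Icc (a - d/2) (a + d/2) := union_subset (singleton_subset_iff.2 haI) hCI
  have hsub : bad (fun θ => fld (ENNReal.ofReal c • γ) θ -
      fld (ENNReal.ofReal c • Measure.dirac a) θ) ({a} ∪ C₀) ε ⊆ Ioo (a - d) (a + d) := by
    intro θ hθ
    by_contra hcon
    have h1 := hθ.2 0
    beta_reduce at h1
    have hθL : θ ∈ Icc 0 (2 * Real.pi) \ Ioo (a - d) (a + d) := ⟨Ioo_subset_Icc_self hθ.1.1, hcon⟩
    rw [fld_smul c hc, fld_smul c hc, fld_dirac] at h1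
    have h2 : |fld γ θ - ck (a - θ)| ≤ r / (2 * c₀ * c₀) := by
      apply avg_bound hγC (ck_integrable hγC hc₀ (fun t ht => hsep t (hCI ht) θ hθL))
      intro t ht
      refine (ck_sub_le hc₀ hc₀ (hsep t (hCI ht) θ hθL) (hsep a haI θ hθL)).trans ?_
      have h3 : |t - θ - (a - θ)| ≤ r := by
        have := hCs ht
        rw [abs_le]
        constructor
        · linarith [this.1]
        · linarith [this.2]
      gcongr
    have h4 : |c * fld γ θ - c * ck (a - θ) - 2 * Real.pi * ((0 : ℤ) : ℝ)| = c * |fld γ θ - ck (a - θ)| := by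
      have e : c * fld γ θ - c * ck (a - θ) - 2 * Real.pi * ((0 : ℤ) : ℝ) = c * (fld γ θ - ck (a - θ)) := by
        push_cast
        ring
      rw [e, abs_mul, abs_of_nonneg hc]
    rw [h4] at h1
    have h5 : c * |fld γ θ - ck (a - θ)| ≤ (c + 1) * (ε * c₀^2 / (c + 1) / (2 * c₀ * c₀)) := by
      calc c * |fld γ θ - ck (a - θ)| ≤ (c + 1) * (r / (2 * c₀ * c₀)) := by
            apply mul_le_mul (by linarith) h2 (abs_nonneg _) (by linarith)
        _ ≤ _ := by gcongr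
    have h6 : (c + 1) * (ε * c₀^2 / (c + 1) / (2 * c₀ * c₀)) = ε / 2 := by
      field_simp
    linarith
  refine ⟨a - d, a + d, ENNReal.ofReal c • γ, {a} ∪ C₀, by linarith, by linarith, by linarith,
    ⟨?_, ?_, ?_, ?_⟩, ?_, ?_⟩
  · exact Measure.smul_finite γ ENNReal.ofReal_ne_top
  · rw [Measure.smul_apply, compl_null (hCI.trans hIs) hγC, smul_zero]
  · exact sing_of hCc hC0 (by rw [Measure.smul_apply, hγC, smul_zero])
  · intro x
    rw [Measure.smul_apply, hγa, smul_zero]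
  · rw [Measure.smul_apply, hγp.measure_univ, smul_eq_mul, mul_one]
  · refine ⟨Measure.smul_finite _ ENNReal.ofReal_ne_top, Measure.smul_finite γ ENNReal.ofReal_ne_top,
      hKc, hKI.trans hIs, ?_, ?_, ?_, hsub, ?_⟩
    · rw [measure_union_null_iff]
      exact ⟨by simp, hC0⟩
    · rw [Measure.smul_apply, Measure.dirac_apply' _ hKc.isClosed.isOpen_compl.measurableSet]
      rw [indicator_of_notMem (by simp), smul_zero]
    · rw [Measure.smul_apply, compl_null subset_union_right hγC, smul_zero]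
    · refine (measureReal_mono hsub ?_).trans ?_
      · rw [Real.volume_Ioo]
        exact ENNReal.ofReal_ne_top
      · rw [Real.volume_real_Ioo_of_le (by linarith)]
        linarith

theorem atom_lemma {a c ε : ℝ} (ha : a ∈ Ioo 0 (2 * Real.pi)) (hc : 0 ≤ c) (hε : 0 < ε) :
    ∃ ρ ν : Measure ℝ, Disc ρ ∧ Cts ν ∧ ρ univ ≤ ENNReal.ofReal ε ∧
      ν univ ≤ ENNReal.ofReal (c + ε) ∧
      ∀ z : ℂ, ‖z‖ < 1 → ‖SI (ENNReal.ofReal c • Measure.dirac a + ρ) z - SI ν z‖ ≤ ε := by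
  obtain ⟨κ, C, hκ, hκ1, hC, H⟩ := step_exists (half_pos hε)
  obtain ⟨w, hw⟩ : ∃ w : ℝ, w = 1 - κ / 2 := ⟨_, rfl⟩
  have hw0 : 0 < w := by rw [hw]; linarith
  have hw1 : w < 1 := by rw [hw]; linarith
  obtain ⟨δ, hδ⟩ : ∃ δ : ℝ, δ = min (ε / 2) (ε * κ / (4 * C)) := ⟨_, rfl⟩
  have hδ0 : 0 < δ := by rw [hδ]; positivity
  have hδ1 : δ ≤ ε / 2 := hδ ▸ min_le_left _ _
  have hδ2 : δ ≤ ε * κ / (4 * C) := hδ ▸ min_le_right _ _
  obtain ⟨p, q, ν₀, K₀, hp, hq, hpq, hν₀, hν₀u, hinv⟩ := start ha hc (half_pos hε) hδ0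
  let T := Measure ℝ × Measure ℝ × Set ℝ
  let P : ℕ → T → Prop := fun n x => Inv p q (ε / 2 + δ * (1 - w^n)) (δ * w^n) x.1 x.2.1 x.2.2
  have hstep : ∀ n (x : {x : T // P n x}), ∃ y : T, Inc (C * (δ * w^n + κ / 2 * δ * w^n)) y.1 y.2.1 ∧
      P (n + 1) (x.1.1 + y.1, x.1.2.1 + y.2.1, x.1.2.2 ∪ y.2.2) := by
    rintro n ⟨⟨σ, ν, K⟩, hx⟩
    have hwn : w^n ≤ 1 := pow_le_one₀ hw0.le hw1.le
    obtain ⟨ρ', ν', K', h1, h2⟩ := H p q (ε / 2 + δ * (1 - w^n)) (κ / 2 * δ * w^n) (δ * w^n) σ ν K hp hq hpq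
      (by nlinarith) (by positivity) hx
    refine ⟨(ρ', ν', K'), h1, ?_⟩
    have e1 : ε / 2 + δ * (1 - w^n) + κ / 2 * δ * w^n = ε / 2 + δ * (1 - w^(n+1)) := by
      rw [pow_succ, hw]
      ring
    have e2 : (1 - κ) * (δ * w^n) + κ / 2 * δ * w^n = δ * w^(n+1) := by
      rw [pow_succ, hw]
      ring
    rw [e1, e2] at h2
    exact h2
  choose f hf1 hf2 using hstep
  have hx0 : P 0 (ENNReal.ofReal c • Measure.dirac a, ν₀, K₀) := by
    show Inv p q (ε / 2 + δ * (1 - w^0)) (δ * w^0) _ _ _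
    have e1 : ε / 2 + δ * (1 - w^0) = ε / 2 := by simp
    have e2 : δ * w^0 = δ := by simp
    rw [e1, e2]
    exact hinv
  let sq : ∀ n, {x : T // P n x} := fun n => Nat.rec ⟨(ENNReal.ofReal c • Measure.dirac a, ν₀, K₀), hx0⟩
    (fun n x => ⟨(x.1.1 + (f n x).1, x.1.2.1 + (f n x).2.1, x.1.2.2 ∪ (f n x).2.2), hf2 n x⟩) n
  let ρ : ℕ → Measure ℝ := fun n => (f n (sq n)).1
  let β : ℕ → Measure ℝ := fun n => (f n (sq n)).2.1
  have hσ : ∀ n, (sq n).1.1 = ENNReal.ofReal c • Measure.dirac a + ∑ i ∈ Finset.range n, ρ i := by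
    intro n
    induction n with
    | zero => simp [sq]
    | succ n ih =>
      rw [Finset.sum_range_succ, ← add_assoc, ← ih]
  have hν : ∀ n, (sq n).1.2.1 = ν₀ + ∑ i ∈ Finset.range n, β i := by
    intro n
    induction n with
    | zero => simp [sq]
    | succ n ih =>
      rw [Finset.sum_range_succ, ← add_assoc, ← ih]
  have hinc : ∀ n, Inc (C * (δ * w^n + κ / 2 * δ * w^n)) (ρ n) (β n) := fun n => hf1 n (sq n)
  have hgeo := (hasSum_geometric_of_lt_one hw0.le hw1).mul_left (2 * C * δ)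
  have hgeo_le : 2 * C * δ * (1 - w)⁻¹ ≤ ε := by
    have e : 1 - w = κ / 2 := by rw [hw]; ring
    rw [e]
    calc 2 * C * δ * (κ / 2)⁻¹ ≤ 2 * C * (ε * κ / (4 * C)) * (κ / 2)⁻¹ := by gcongr
      _ = ε := by
        field_simp
        norm_num
  have hbd : ∀ n, C * (δ * w^n + κ / 2 * δ * w^n) ≤ 2 * C * δ * w^n := by
    intro n
    have : 0 < C * δ * w^n := by positivity
    nlinarith
  have hρu : Measure.sum ρ univ ≤ ENNReal.ofReal ε := by
    refine (sum_univ_le (fun i => by positivity) hgeo (fun i => ?_)).trans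
      (ENNReal.ofReal_le_ofReal hgeo_le)
    exact (hinc i).2.2.1.trans (ENNReal.ofReal_le_ofReal (hbd i))
  have hβu : Measure.sum β univ ≤ ENNReal.ofReal ε := by
    refine (sum_univ_le (fun i => by positivity) hgeo (fun i => ?_)).trans
      (ENNReal.ofReal_le_ofReal hgeo_le)
    exact (hinc i).2.2.2.trans (ENNReal.ofReal_le_ofReal (hbd i))
  have hρf := finite_of_le hρu
  have hβf := finite_of_le hβu
  have hν₀f := hν₀.1
  refine ⟨Measure.sum ρ, ν₀ + Measure.sum β, Disc_sum (fun i => (hinc i).1) hρf,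
    Cts_add hν₀ (Cts_sum (fun i => (hinc i).2.1) hβf), hρu, ?_, ?_⟩
  · rw [Measure.add_apply, ENNReal.ofReal_add hc hε.le]
    exact add_le_add hν₀u hβu
  · intro z hz
    have hcf : IsFiniteMeasure (ENNReal.ofReal c • Measure.dirac a) :=
      Measure.smul_finite _ ENNReal.ofReal_ne_top
    have hρi : ∀ n, IsFiniteMeasure (∑ i ∈ Finset.range n, ρ i) := by
      intro n
      exact (Disc_finset _ (fun i _ => (hinc i).1)).1
    have hβi : ∀ n, IsFiniteMeasure (∑ i ∈ Finset.range n, β i) := by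
      intro n
      have h1 : IsFiniteMeasure (ν₀ + ∑ i ∈ Finset.range n, β i) := by
        rw [← hν n]
        exact (sq n).2.2.1
      refine ⟨lt_of_le_of_lt ?_ (measure_lt_top (ν₀ + ∑ i ∈ Finset.range n, β i) univ)⟩
      rw [Measure.add_apply]
      exact le_add_self
    have hlim1 : Tendsto (fun n => SI (sq n).1.1 z) atTop
        (𝓝 (SI (ENNReal.ofReal c • Measure.dirac a + Measure.sum ρ) z)) := by
      rw [SI_add hz]
      have h1 := ((SI_sum_tendsto hρf hz).comp tendsto_finset_range).const_mul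
        (SI (ENNReal.ofReal c • Measure.dirac a) z)
      refine h1.congr (fun n => ?_)
      rw [hσ n, SI_add hz]
      rfl
    have hlim2 : Tendsto (fun n => SI (sq n).1.2.1 z) atTop
        (𝓝 (SI (ν₀ + Measure.sum β) z)) := by
      rw [SI_add hz]
      have h1 := ((SI_sum_tendsto hβf hz).comp tendsto_finset_range).const_mul (SI ν₀ z)
      refine h1.congr (fun n => ?_)
      have := hβi n
      rw [hν n, SI_add hz]
      rfl
    have hz1 : 0 < 1 - ‖z‖ := by linarith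
    refine le_of_pow_le hε hz1 (fun m => ?_)
    have hL := ((hlim1.sub hlim2).norm.pow m).const_mul (1 - ‖z‖)
    have hR : Tendsto (fun n : ℕ => ε^m + 2^m * (δ * w^n)) atTop (𝓝 (ε^m + 2^m * (δ * 0))) :=
      tendsto_const_nhds.add (((tendsto_pow_atTop_nhds_zero_of_lt_one hw0.le hw1).const_mul δ).const_mul _)
    rw [mul_zero, mul_zero, add_zero] at hR
    refine le_of_tendsto_of_tendsto hL hR (Eventually.of_forall (fun n => ?_))
    obtain ⟨i1, i2, i3, i4, i5, i6, i7, i8, i9⟩ := (sq n).2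
    refine (cauchy_est i3 i4 i5 i6 i7 hε.le hz m).trans ?_
    have hwn : 0 ≤ w^n := by positivity
    have hmono : bad (fun θ => fld (sq n).1.2.1 θ - fld (sq n).1.1 θ) (sq n).1.2.2 ε ⊆
        bad (fun θ => fld (sq n).1.2.1 θ - fld (sq n).1.1 θ) (sq n).1.2.2 (ε / 2 + δ * (1 - w^n)) := by
      apply bad_mono
      nlinarith
    have h3 : (volume (bad (fun θ => fld (sq n).1.2.1 θ - fld (sq n).1.1 θ) (sq n).1.2.2 ε)).toReal ≤
        δ * w^n := by
      refine le_trans ?_ i9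
      exact measureReal_mono hmono (bad_fin _ _ _).ne
    exact add_le_add le_rfl (mul_le_mul_of_nonneg_left h3 (by positivity))

end Pool.Agent.MP_12605b_an
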