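import Mathlib

/-!
A continuous singular probability measure carried by a compact null set inside a given interval.
-/

set_option autoImplicit false

open MeasureTheory Set Filter Topology

namespace Pool.Agent.MP_12605b_an

/-- The Cantor-like embedding of `ℕ → Bool` in the line. -/
noncomputable def cf (f : ℕ → Bool) : ℝ := Cardinal.cantorFunction (1/4) f

lemma cf_inj : Function.Injective cf :=
  Cardinal.cantorFunction_injective (by norm_num) (by norm_num)

lemma aux_le (f : ℕ → Bool) (n : ℕ) : ‖Cardinal.cantorFunctionAux (1/4) f n‖ ≤ (1/4 : ℝ)^n := by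
  unfold Cardinal.cantorFunctionAux
  cases f n <;> simp

lemma cf_cont : Continuous cf := by
  unfold cf Cardinal.cantorFunction
  refine continuous_tsum (u := fun n => (1/4 : ℝ)^n) ?_ ?_ ?_
  · intro n
    unfold Cardinal.cantorFunctionAux
    exact (continuous_of_discreteTopology (f := fun b : Bool => cond b ((1/4 : ℝ)^n) 0)).comp
      (continuous_apply n)
  · exact summable_geometric_of_lt_one (by norm_num) (by norm_num)
  · intro n f
    exact aux_le f n

lemma cf_nonneg (f : ℕ → Bool) : 0 ≤ cf f :=
  tsum_nonneg (fun n => Cardinal.cantorFunctionAux_nonneg (by norm_num))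

lemma cf_le (f : ℕ → Bool) : cf f ≤ 2 := by
  unfold cf Cardinal.cantorFunction
  have h1 : ∑' n, Cardinal.cantorFunctionAux (1/4) f n ≤ ∑' n, (1/4 : ℝ)^n := by
    refine Summable.tsum_le_tsum ?_ (Cardinal.summable_cantor_function f (by norm_num) (by norm_num))
      (summable_geometric_of_lt_one (by norm_num) (by norm_num))
    intro n
    exact (le_abs_self _).trans (aux_le f n)
  rw [tsum_geometric_of_lt_one (by norm_num) (by norm_num)] at h1
  norm_num at h1
  linarith

/-- The Cantor-like set. -/
def cset : Set ℝ := range cf

lemma cset_compact : IsCompact cset := isCompact_range cf_cont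

lemma cset_sub : cset ⊆ Icc 0 2 := by
  rintro _ ⟨f, rfl⟩
  exact ⟨cf_nonneg f, cf_le f⟩

lemma cset_null : volume cset = 0 := by
  have hfin : volume cset ≠ ⊤ := cset_compact.measure_lt_top.ne
  have hsub : cset ⊆ (fun x : ℝ => (1/4) * x) '' cset ∪ (fun x : ℝ => 1 + (1/4) * x) '' cset := by
    rintro _ ⟨f, rfl⟩
    have h := Cardinal.cantorFunction_succ (c := 1/4) f (by norm_num) (by norm_num)
    cases hf : f 0
    · left
      refine ⟨cf (fun n => f (n+1)), ⟨_, rfl⟩, ?_⟩
      simp only [cf]
      rw [h, hf]
      simp
    · right
      refine ⟨cf (fun n => f (n+1)), ⟨_, rfl⟩, ?_⟩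
      simp only [cf]
      rw [h, hf]
      simp
  have h1 : volume ((fun x : ℝ => (1/4) * x) '' cset) = ENNReal.ofReal (1/4) * volume cset := by
    have := Measure.addHaar_smul (volume : Measure ℝ) (1/4 : ℝ) cset
    simp only [Module.finrank_self, pow_one] at this
    rw [abs_of_nonneg (by norm_num : (0:ℝ) ≤ 1/4)] at this
    exact this
  have h2 : volume ((fun x : ℝ => 1 + (1/4) * x) '' cset) = ENNReal.ofReal (1/4) * volume cset := by
    rw [← h1]
    have : (fun x : ℝ => 1 + (1/4) * x) '' cset = (fun x => 1 + x) '' ((fun x : ℝ => (1/4) * x) '' cset) := by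
      rw [image_image]
    rw [this]
    simp
  have h3 : volume cset ≤ ENNReal.ofReal (1/4) * volume cset + ENNReal.ofReal (1/4) * volume cset := by
    calc volume cset ≤ _ := measure_mono hsub
      _ ≤ _ := measure_union_le _ _
      _ = _ := by rw [h1, h2]
  have h4 : (volume cset).toReal ≤ (1/4) * (volume cset).toReal + (1/4) * (volume cset).toReal := by
    have := ENNReal.toReal_mono (by finiteness) h3
    rw [ENNReal.toReal_add (by finiteness) (by finiteness), ENNReal.toReal_mul,
      ENNReal.toReal_ofReal (by norm_num)] at this
    exact this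
  have h5 : (volume cset).toReal = 0 := by
    have : 0 ≤ (volume cset).toReal := ENNReal.toReal_nonneg
    linarith
  rcases (ENNReal.toReal_eq_zero_iff _).1 h5 with h | h
  · exact h
  · exact absurd h hfin

/-- In every interval `[y, y+r]` there is a continuous singular probability measure carried by a
compact null set. -/
lemma exists_cantor (y r : ℝ) (hr : 0 < r) : ∃ (γ : Measure ℝ) (C : Set ℝ),
    IsProbabilityMeasure γ ∧ IsCompact C ∧ C ⊆ Icc y (y + r) ∧ volume C = 0 ∧ γ Cᶜ = 0 ∧
    ∀ x, γ {x} = 0 := by
  let e : (ℕ → Bool) ≃ᵐ ℝ := PolishSpace.measurableEquivOfNotCountable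
    (by
      have h3 : Cardinal.mk (ℕ → Bool) = Cardinal.continuum := by simp
      intro h
      have h2 : Cardinal.mk (ℕ → Bool) ≤ Cardinal.aleph0 := Cardinal.mk_le_aleph0_iff.2 h
      rw [h3] at h2
      exact absurd h2 (not_le.2 Cardinal.aleph0_lt_continuum))
    (by
      intro h
      exact Cardinal.not_countable_real ((Set.countable_univ_iff).2 h))
  let g : ℝ → ℝ := fun t => y + (r/2) * cf (e.symm t)
  have hg : Measurable g := by
    have h1 : Measurable cf := cf_cont.measurable
    exact ((h1.comp e.symm.measurable).const_mul _).const_add _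
  have hinj : Function.Injective g := by
    intro s t hst
    have h1 : cf (e.symm s) = cf (e.symm t) := by
      have : (r/2) * cf (e.symm s) = (r/2) * cf (e.symm t) := by
        have := hst
        simp only [g] at this
        linarith
      exact mul_left_cancel₀ (by positivity) this
    exact e.symm.injective (cf_inj h1)
  let C : Set ℝ := (fun x => y + (r/2) * x) '' cset
  refine ⟨Measure.map g (volume.restrict (Icc 0 1)), C, ?_, ?_, ?_, ?_, ?_, ?_⟩
  · constructor
    rw [Measure.map_apply hg MeasurableSet.univ]
    simp
  · exact cset_compact.image (by fun_prop)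
  · rintro _ ⟨x, hx, rfl⟩
    have := cset_sub hx
    constructor
    · have := this.1
      simp only
      nlinarith
    · have := this.2
      simp only
      nlinarith
  · have h1 : volume ((fun x : ℝ => (r/2) * x) '' cset) = ENNReal.ofReal |r/2| * volume cset := by
      have := Measure.addHaar_smul (volume : Measure ℝ) (r/2 : ℝ) cset
      simp only [Module.finrank_self, pow_one] at this
      exact this
    have : C = (fun x => y + x) '' ((fun x : ℝ => (r/2) * x) '' cset) := by
      rw [image_image]
    rw [this]
    simp only [image_add_left, measure_preimage_add]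
    rw [h1, cset_null, mul_zero]
  · have hC : MeasurableSet C := by
      have : IsCompact C := cset_compact.image (by fun_prop)
      exact this.measurableSet
    rw [Measure.map_apply hg hC.compl]
    have : g ⁻¹' Cᶜ = ∅ := by
      ext t
      simp only [mem_preimage, mem_compl_iff, mem_empty_iff_false, iff_false, not_not]
      exact ⟨cf (e.symm t), ⟨_, rfl⟩, rfl⟩
    rw [this]
    simp
  · intro x
    rw [Measure.map_apply hg (measurableSet_singleton x)]
    have : (g ⁻¹' {x}).Subsingleton := by
      intro s hs t ht
      exact hinj (hs.trans ht.symm)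
    exact this.measure_zero _

end Pool.Agent.MP_12605b_an
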