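import Pool.Agent.MP_12605b_an.Kernel3

/-!
The sup bound for the difference of two singular inner functions from boundary information.
-/

set_option autoImplicit false

open MeasureTheory Set Filter Topology

namespace Pool.Agent.MP_12605b_an

/-- The points off `K` where `h` is not within `ε` of `2πℤ`. -/
def bad (h : ℝ → ℝ) (K : Set ℝ) (ε : ℝ) : Set ℝ :=
  {θ | θ ∈ Ioo 0 (2 * Real.pi) \ K ∧ ∀ m : ℤ, ε ≤ |h θ - 2 * Real.pi * m|}

lemma bad_sub (h : ℝ → ℝ) (K : Set ℝ) (ε : ℝ) : bad h K ε ⊆ Ioo 0 (2 * Real.pi) \ K :=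
  fun _ hθ => hθ.1

lemma bad_meas {h : ℝ → ℝ} {K : Set ℝ} (hK : IsCompact K)
    (hh : ContinuousOn h (Ioo 0 (2 * Real.pi) \ K)) (ε : ℝ) : MeasurableSet (bad h K ε) := by
  have hopen : IsOpen (Ioo 0 (2 * Real.pi) \ K) := isOpen_Ioo.sdiff hK.isClosed
  have hS : IsClosed {x : ℝ | ∀ m : ℤ, ε ≤ |x - 2 * Real.pi * m|} := by
    rw [Set.ofPred_forall]
    exact isClosed_iInter (fun m => isClosed_le continuous_const (by fun_prop))
  have h1 : IsOpen ((Ioo 0 (2 * Real.pi) \ K) ∩
      h ⁻¹' {x : ℝ | ∀ m : ℤ, ε ≤ |x - 2 * Real.pi * m|}ᶜ) :=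
    hh.isOpen_inter_preimage hopen hS.isOpen_compl
  have h2 : bad h K ε = (Ioo 0 (2 * Real.pi) \ K) \ ((Ioo 0 (2 * Real.pi) \ K) ∩
      h ⁻¹' {x : ℝ | ∀ m : ℤ, ε ≤ |x - 2 * Real.pi * m|}ᶜ) := by
    ext θ
    simp only [bad, Set.mem_ofPred_eq, Set.mem_sdiff, Set.mem_inter_iff, Set.mem_preimage, Set.mem_compl_iff]
    tauto
  rw [h2]
  exact hopen.measurableSet.diff h1.measurableSet

lemma bad_fin (h : ℝ → ℝ) (K : Set ℝ) (ε : ℝ) : volume (bad h K ε) < ⊤ := by
  refine lt_of_le_of_lt (measure_mono ((bad_sub h K ε).trans sdiff_subset)) ?_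
  rw [Real.volume_Ioo]
  exact ENNReal.ofReal_lt_top

lemma exp_diff_le (a b : ℝ) (m : ℤ) :
    ‖Complex.exp ((a : ℂ) * Complex.I) - Complex.exp ((b : ℂ) * Complex.I)‖ ≤
      |b - a - 2 * Real.pi * m| := by
  rw [e_sub_norm]
  have h1 : |Real.sin ((a - b) / 2)| = |Real.sin ((b - a - 2 * Real.pi * m) / 2)| := by
    have h2 : Real.sin ((b - a - 2 * Real.pi * m) / 2) = (-1)^m * Real.sin ((b - a)/2) := by
      have : (b - a - 2 * Real.pi * m) / 2 = (b - a)/2 - m * Real.pi := by ring
      rw [this, Real.sin_sub_int_mul_pi]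
    rw [h2, abs_mul]
    have h3 : |((-1 : ℝ))^m| = 1 := by
      rw [abs_zpow]
      simp
    rw [h3, one_mul]
    have : (a - b)/2 = -((b-a)/2) := by ring
    rw [this, Real.sin_neg, abs_neg]
  rw [h1]
  have h4 : |Real.sin ((b - a - 2 * Real.pi * m) / 2)| ≤ |(b - a - 2 * Real.pi * m) / 2| :=
    Real.abs_sin_le_abs
  rw [abs_div, abs_two] at h4
  linarith

lemma circle_est {σ ν : Measure ℝ} [IsFiniteMeasure σ] [IsFiniteMeasure ν] {z : ℂ} (n : ℕ)
    {r : ℝ} (hr : ‖z‖ < r) (hr1 : r < 1) :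
    (r - ‖z‖) * ‖SI σ z - SI ν z‖ ^ n ≤ (2 * Real.pi)⁻¹ *
      ∫ θ in Ioc 0 (2 * Real.pi), ‖SI σ (r * Complex.exp ((θ : ℂ) * Complex.I)) -
        SI ν (r * Complex.exp ((θ : ℂ) * Complex.I))‖ ^ n := by
  have hr0 : 0 < r := lt_of_le_of_lt (norm_nonneg z) hr
  have hpi := Real.pi_pos
  let F : ℂ → ℂ := fun w => (SI σ w - SI ν w)^n
  have hFd : ∀ w : ℂ, ‖w‖ < 1 → DifferentiableAt ℂ F w := by
    intro w hw
    exact ((SI_diff σ hw).sub (SI_diff ν hw)).pow n
  have hcauchy := Complex.two_pi_I_inv_smul_circleIntegral_sub_inv_smul_of_differentiable_on_off_countable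
    (R := r) (c := 0) (w := z) (f := F) (s := ∅) countable_empty (by simpa using hr)
    (by
      intro w hw
      have : ‖w‖ < 1 := by
        have : ‖w‖ ≤ r := by simpa using hw
        linarith
      exact (hFd w this).continuousAt.continuousWithinAt)
    (by
      intro w hw
      have : ‖w‖ < 1 := by
        have : ‖w‖ < r := by simpa using hw.1
        linarith
      exact hFd w this)
  have h1 : ‖F z‖ = (2 * Real.pi)⁻¹ * ‖∮ w in C(0, r), (w - z)⁻¹ • F w‖ := by
    rw [← hcauchy, norm_smul]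
    congr 1
    rw [norm_inv, norm_mul, norm_mul, Complex.norm_I, mul_one, Complex.norm_real,
      Real.norm_eq_abs, abs_of_pos hpi]
    simp
  have h2 : ‖∮ w in C(0, r), (w - z)⁻¹ • F w‖ ≤ ∫ θ in (0:ℝ)..(2 * Real.pi),
      (r / (r - ‖z‖)) * ‖F (r * Complex.exp ((θ : ℂ) * Complex.I))‖ := by
    rw [circleIntegral]
    refine (intervalIntegral.norm_integral_le_integral_norm (by positivity)).trans ?_
    refine intervalIntegral.integral_mono_on (by positivity) ?_ ?_ ?_
    · apply Continuous.intervalIntegrable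
      have hc1 : Continuous (fun θ : ℝ => circleMap 0 r θ) := continuous_circleMap 0 r
      have hne : ∀ θ : ℝ, circleMap 0 r θ - z ≠ 0 := by
        intro θ h
        have h3 : circleMap 0 r θ = z := sub_eq_zero.1 h
        have h4 : ‖circleMap 0 r θ‖ = r := by
          simp [circleMap, abs_of_pos hr0]
        rw [h3] at h4
        linarith
      have hFc : Continuous (fun θ : ℝ => F (circleMap 0 r θ)) := by
        rw [continuous_iff_continuousAt]
        intro θ
        have h4 : ‖circleMap 0 r θ‖ < 1 := by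
          have : ‖circleMap 0 r θ‖ = r := by
            simp [circleMap, abs_of_pos hr0]
          rw [this]
          exact hr1
        exact ContinuousAt.comp (g := F) (hFd _ h4).continuousAt hc1.continuousAt
      have hd : Continuous (fun θ : ℝ => deriv (circleMap 0 r) θ) := by
        simp only [deriv_circleMap]
        fun_prop
      exact (hd.smul (((hc1.sub continuous_const).inv₀ hne).smul hFc)).norm
    · apply Continuous.intervalIntegrable
      refine continuous_const.mul ?_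
      rw [continuous_iff_continuousAt]
      intro θ
      have h4 : ‖(r : ℂ) * Complex.exp ((θ : ℂ) * Complex.I)‖ < 1 := by
        rw [norm_mul, norm_e, mul_one, Complex.norm_real, Real.norm_eq_abs, abs_of_pos hr0]
        exact hr1
      exact (ContinuousAt.comp (g := F) (f := fun θ : ℝ => (r : ℂ) * Complex.exp ((θ : ℂ) * Complex.I))
        (hFd _ h4).continuousAt (by fun_prop)).norm
    · intro θ _
      have e1 : circleMap 0 r θ = r * Complex.exp ((θ : ℂ) * Complex.I) := by simp [circleMap]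
      rw [norm_smul, norm_smul, deriv_circleMap, norm_mul, Complex.norm_I, mul_one, e1, norm_mul,
        norm_e, mul_one, Complex.norm_real, Real.norm_eq_abs, abs_of_pos hr0, ← mul_assoc]
      refine mul_le_mul_of_nonneg_right ?_ (norm_nonneg _)
      rw [norm_inv, ← div_eq_mul_inv]
      have h3 : r - ‖z‖ ≤ ‖(r : ℂ) * Complex.exp ((θ : ℂ) * Complex.I) - z‖ := by
        have := norm_sub_norm_le ((r : ℂ) * Complex.exp ((θ : ℂ) * Complex.I)) z
        rw [norm_mul, norm_e, mul_one, Complex.norm_real, Real.norm_eq_abs, abs_of_pos hr0] at this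
        exact this
      exact div_le_div_of_nonneg_left hr0.le (by linarith) h3
  rw [intervalIntegral.integral_of_le (by positivity)] at h2
  have h5 : ∫ θ in Ioc 0 (2 * Real.pi), (r / (r - ‖z‖)) * ‖F (r * Complex.exp ((θ : ℂ) * Complex.I))‖
      = (r / (r - ‖z‖)) * ∫ θ in Ioc 0 (2 * Real.pi), ‖F (r * Complex.exp ((θ : ℂ) * Complex.I))‖ :=
    integral_const_mul _ _
  rw [h5] at h2
  have h6 : ‖F z‖ = ‖SI σ z - SI ν z‖^n := by simp [F]
  have h7 : ∀ θ : ℝ, ‖F (r * Complex.exp ((θ : ℂ) * Complex.I))‖ =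
      ‖SI σ (r * Complex.exp ((θ : ℂ) * Complex.I)) -
        SI ν (r * Complex.exp ((θ : ℂ) * Complex.I))‖ ^ n := by
    intro θ
    simp [F]
  simp only [h7] at h2
  rw [← h6, h1]
  set J := ∫ θ in Ioc 0 (2 * Real.pi), ‖SI σ (r * Complex.exp ((θ : ℂ) * Complex.I)) -
        SI ν (r * Complex.exp ((θ : ℂ) * Complex.I))‖ ^ n with hJ
  have hJ0 : 0 ≤ J := integral_nonneg (fun θ => by positivity)
  have h8 : 0 < r - ‖z‖ := by linarith
  calc (r - ‖z‖) * ((2 * Real.pi)⁻¹ * ‖∮ w in C(0, r), (w - z)⁻¹ • F w‖)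
      ≤ (r - ‖z‖) * ((2 * Real.pi)⁻¹ * (r / (r - ‖z‖) * J)) := by
        apply mul_le_mul_of_nonneg_left _ h8.le
        apply mul_le_mul_of_nonneg_left h2 (by positivity)
    _ = (2 * Real.pi)⁻¹ * (r * J) := by
        field_simp
    _ ≤ (2 * Real.pi)⁻¹ * J := by
        apply mul_le_mul_of_nonneg_left _ (by positivity)
        nlinarith

lemma cauchy_est {σ ν : Measure ℝ} [IsFiniteMeasure σ] [IsFiniteMeasure ν] {K : Set ℝ}
    (hK : IsCompact K) (hKs : K ⊆ Ioo 0 (2 * Real.pi)) (hK0 : volume K = 0)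
    (hσ : σ Kᶜ = 0) (hν : ν Kᶜ = 0) {ε : ℝ} (hε : 0 ≤ ε) {z : ℂ} (hz : ‖z‖ < 1) (n : ℕ) :
    (1 - ‖z‖) * ‖SI σ z - SI ν z‖ ^ n ≤
      ε ^ n + 2 ^ n * (volume (bad (fun θ => fld ν θ - fld σ θ) K ε)).toReal := by
  have hpi := Real.pi_pos
  set B := bad (fun θ => fld ν θ - fld σ θ) K ε with hB
  have hBm : MeasurableSet B := bad_meas hK ((fld_cont hK hKs hν).sub (fld_cont hK hKs hσ)) ε
  have hBfin : volume B < ⊤ := bad_fin _ _ _
  -- the limit of the circle estimates
  have hae : ∀ᵐ θ ∂(volume.restrict (Ioc 0 (2 * Real.pi))), θ ∈ Ioo 0 (2 * Real.pi) \ K := by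
    have h1 : ∀ᵐ θ ∂(volume.restrict (Ioc 0 (2 * Real.pi))), θ ∉ K := by
      apply ae_restrict_of_ae
      exact measure_eq_zero_iff_ae_notMem.1 hK0
    have h2 : ∀ᵐ θ ∂(volume.restrict (Ioc 0 (2 * Real.pi))), θ ≠ 2 * Real.pi := by
      apply ae_restrict_of_ae
      exact Measure.ae_ne _ _
    filter_upwards [h1, h2, ae_restrict_mem measurableSet_Ioc] with θ a1 a2 a3
    exact ⟨⟨a3.1, lt_of_le_of_ne a3.2 a2⟩, a1⟩
  have hIoo : Ioo ‖z‖ 1 ∈ 𝓝[<] (1:ℝ) := Ioo_mem_nhdsLT hz
  have hlim : Tendsto (fun r : ℝ => ∫ θ in Ioc 0 (2 * Real.pi),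
      ‖SI σ (r * Complex.exp ((θ : ℂ) * Complex.I)) -
        SI ν (r * Complex.exp ((θ : ℂ) * Complex.I))‖ ^ n) (𝓝[<] 1)
      (𝓝 (∫ θ in Ioc 0 (2 * Real.pi), ‖Complex.exp ((fld σ θ : ℂ) * Complex.I) -
        Complex.exp ((fld ν θ : ℂ) * Complex.I)‖ ^ n)) := by
    refine tendsto_integral_filter_of_dominated_convergence (fun _ => 2^n) ?_ ?_
      (integrable_const _) ?_
    · filter_upwards [hIoo] with r hr
      have hr0 : 0 < r := lt_of_le_of_lt (norm_nonneg z) hr.1
      apply Continuous.aestronglyMeasurable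
      rw [continuous_iff_continuousAt]
      intro θ
      have h4 : ‖(r : ℂ) * Complex.exp ((θ : ℂ) * Complex.I)‖ < 1 := by
        rw [norm_mul, norm_e, mul_one, Complex.norm_real, Real.norm_eq_abs, abs_of_pos hr0]
        exact hr.2
      have hc : ContinuousAt (fun θ : ℝ => (r : ℂ) * Complex.exp ((θ : ℂ) * Complex.I)) θ := by
        fun_prop
      exact ((ContinuousAt.comp (g := SI σ)
        (f := fun θ : ℝ => (r : ℂ) * Complex.exp ((θ : ℂ) * Complex.I))
        (SI_diff σ h4).continuousAt hc).sub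
        (ContinuousAt.comp (g := SI ν)
        (f := fun θ : ℝ => (r : ℂ) * Complex.exp ((θ : ℂ) * Complex.I))
        (SI_diff ν h4).continuousAt hc)).norm.pow n
    · filter_upwards [hIoo] with r hr
      have hr0 : 0 < r := lt_of_le_of_lt (norm_nonneg z) hr.1
      refine Eventually.of_forall (fun θ => ?_)
      have h4 : ‖(r : ℂ) * Complex.exp ((θ : ℂ) * Complex.I)‖ < 1 := by
        rw [norm_mul, norm_e, mul_one, Complex.norm_real, Real.norm_eq_abs, abs_of_pos hr0]
        exact hr.2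
      rw [norm_pow, norm_norm]
      apply pow_le_pow_left₀ (norm_nonneg _)
      have := norm_sub_le (SI σ (r * Complex.exp ((θ : ℂ) * Complex.I)))
        (SI ν (r * Complex.exp ((θ : ℂ) * Complex.I)))
      linarith [SI_norm_le h4 σ, SI_norm_le h4 ν]
    · filter_upwards [hae] with θ hθ
      have a1 := SI_tendsto hK hKs hσ (Ioo_subset_Icc_self hθ.1) hθ.2
      have a2 := SI_tendsto hK hKs hν (Ioo_subset_Icc_self hθ.1) hθ.2
      exact (a1.sub a2).norm.pow n
  have hlim2 : Tendsto (fun r : ℝ => (r - ‖z‖) * ‖SI σ z - SI ν z‖ ^ n) (𝓝[<] 1)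
      (𝓝 ((1 - ‖z‖) * ‖SI σ z - SI ν z‖ ^ n)) := by
    have : ContinuousAt (fun r : ℝ => (r - ‖z‖) * ‖SI σ z - SI ν z‖ ^ n) 1 := by fun_prop
    exact this.tendsto.mono_left nhdsWithin_le_nhds
  have hle := le_of_tendsto_of_tendsto hlim2 (hlim.const_mul (2 * Real.pi)⁻¹) (by
    filter_upwards [hIoo] with r hr
    exact circle_est n hr.1 hr.2)
  refine hle.trans ?_
  -- bound the boundary integral
  have hint : ∫ θ in Ioc 0 (2 * Real.pi), ‖Complex.exp ((fld σ θ : ℂ) * Complex.I) -
        Complex.exp ((fld ν θ : ℂ) * Complex.I)‖ ^ n ≤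
      ∫ θ in Ioc 0 (2 * Real.pi), (ε ^ n + B.indicator (fun _ => (2:ℝ)^n) θ) := by
    apply integral_mono_of_nonneg
    · exact Eventually.of_forall (fun θ => by positivity)
    · refine (integrable_const _).add ?_
      refine IntegrableOn.integrable ?_
      exact ((integrable_const _).indicator hBm)
    · filter_upwards [hae] with θ hθ
      by_cases hb : θ ∈ B
      · simp only [indicator_of_mem hb]
        have : ‖Complex.exp ((fld σ θ : ℂ) * Complex.I) -
            Complex.exp ((fld ν θ : ℂ) * Complex.I)‖ ≤ 2 := by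
          have := norm_sub_le (Complex.exp ((fld σ θ : ℂ) * Complex.I))
            (Complex.exp ((fld ν θ : ℂ) * Complex.I))
          rw [norm_e, norm_e] at this
          linarith
        have h2 := pow_le_pow_left₀ (norm_nonneg _) this n
        have h3 : 0 ≤ ε^n := by positivity
        linarith
      · simp only [indicator_of_notMem hb, add_zero]
        apply pow_le_pow_left₀ (norm_nonneg _)
        have : ∃ m : ℤ, |(fld ν θ - fld σ θ) - 2 * Real.pi * m| < ε := by
          by_contra hcon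
          push Not at hcon
          exact hb ⟨hθ, hcon⟩
        obtain ⟨m, hm⟩ := this
        exact (exp_diff_le (fld σ θ) (fld ν θ) m).trans hm.le
  have hval : ∫ θ in Ioc 0 (2 * Real.pi), (ε ^ n + B.indicator (fun _ => (2:ℝ)^n) θ) ≤
      2 * Real.pi * ε^n + 2^n * (volume B).toReal := by
    rw [integral_add (integrable_const _) ((integrable_const _).indicator hBm)]
    rw [integral_indicator hBm, setIntegral_const, integral_const]
    simp only [smul_eq_mul]
    have e1 : volume.real (Ioc 0 (2 * Real.pi)) = 2 * Real.pi := by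
      rw [measureReal_def, Real.volume_Ioc, sub_zero,
        ENNReal.toReal_ofReal (by positivity)]
    have e2 : ((volume.restrict (Ioc 0 (2 * Real.pi))).restrict B).real univ ≤
        (volume B).toReal := by
      rw [measureReal_def, Measure.restrict_apply_univ]
      apply ENNReal.toReal_mono hBfin.ne
      exact Measure.restrict_apply_le _ _
    rw [e1]
    have : (0:ℝ) < 2^n := by positivity
    nlinarith
  have h9 : 0 ≤ (volume B).toReal := ENNReal.toReal_nonneg
  calc (2 * Real.pi)⁻¹ * ∫ θ in Ioc 0 (2 * Real.pi), ‖Complex.exp ((fld σ θ : ℂ) * Complex.I) -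
        Complex.exp ((fld ν θ : ℂ) * Complex.I)‖ ^ n
      ≤ (2 * Real.pi)⁻¹ * (2 * Real.pi * ε^n + 2^n * (volume B).toReal) := by
        apply mul_le_mul_of_nonneg_left (hint.trans hval) (by positivity)
    _ = ε^n + (2 * Real.pi)⁻¹ * (2^n * (volume B).toReal) := by
        field_simp
    _ ≤ ε^n + 1 * (2^n * (volume B).toReal) := by
        gcongr
        apply inv_le_one_of_one_le₀
        linarith [Real.pi_gt_three]
    _ = _ := by rw [one_mul]

/-- Passing to powers: if the power estimates hold with a fixed constant, the norm is at most `ε`. -/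
lemma le_of_pow_le {x ε c : ℝ} (hε : 0 < ε) (hc : 0 < c)
    (h : ∀ n : ℕ, c * x ^ n ≤ ε ^ n) : x ≤ ε := by
  by_contra hcon
  push Not at hcon
  have h1 : 1 < x / ε := (one_lt_div hε).2 hcon
  obtain ⟨n, hn⟩ := pow_unbounded_of_one_lt (1 / c) h1
  have h2 := h n
  have h3 : 1 / c < x^n / ε^n := by rwa [div_pow] at hn
  have h4 : 0 < ε^n := by positivity
  rw [div_lt_div_iff₀ hc h4] at h3
  linarith

end Pool.Agent.MP_12605b_an
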