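import Pool.Agent.MP_12605b_an.Dense

/-!
Transport of `dense_exists` to measures on the unit circle.
-/

set_option autoImplicit false

open MeasureTheory Set Filter Topology
open scoped ENNReal

namespace Pool.Agent.MP_12605b_an

/-- The parametrization of the circle starting at the angle `c`. -/
noncomputable def par (c t : ℝ) : ℂ := Complex.exp (((t + c : ℝ) : ℂ) * Complex.I)

lemma par_cont (c : ℝ) : Continuous (par c) := by
  unfold par
  fun_prop

lemma par_meas (c : ℝ) : Measurable (par c) := (par_cont c).measurable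

lemma par_norm (c t : ℝ) : ‖par c t‖ = 1 := by
  unfold par
  exact Complex.norm_exp_ofReal_mul_I _

lemma par_coe (c t : ℝ) : par c t = Complex.exp ((t : ℂ) * Complex.I) *
    Complex.exp ((c : ℂ) * Complex.I) := by
  unfold par
  rw [← Complex.exp_add]
  congr 1
  push_cast
  ring

lemma par_eq {c s t : ℝ} {c' : ℝ} (h : par c s = par c' t) :
    ∃ m : ℤ, s + c = t + c' + m * (2 * Real.pi) := by
  unfold par at h
  rw [Complex.exp_eq_exp_iff_exists_int] at h
  obtain ⟨m, hm⟩ := h
  refine ⟨m, ?_⟩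
  have h1 : (((s + c : ℝ) : ℂ)) * Complex.I =
      ((t + c' + m * (2 * Real.pi) : ℝ) : ℂ) * Complex.I := by
    rw [hm]
    push_cast
    ring
  exact_mod_cast mul_right_cancel₀ Complex.I_ne_zero h1

lemma par_inj (c : ℝ) : InjOn (par c) (Ioo 0 (2 * Real.pi)) := by
  intro s hs t ht h
  obtain ⟨m, hm⟩ := par_eq h
  have hpi := Real.pi_pos
  have h1 : s - t = m * (2 * Real.pi) := by linarith
  have h2 : (m : ℝ) < 1 := by
    by_contra h
    push Not at h
    nlinarith [hs.2, ht.1]
  have h3 : (-1 : ℝ) < m := by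
    by_contra h
    push Not at h
    nlinarith [hs.1, ht.2]
  have h4 : m = 0 := by
    have h5 : m < 1 := by exact_mod_cast h2
    have h6 : -1 < m := by exact_mod_cast h3
    omega
  rw [h4] at h1
  simp at h1
  linarith

/-- Every point different from `exp (i c)` has a parameter in `(0, 2π)`. -/
lemma par_surj (c : ℝ) (x : ℂ) (hx1 : ‖x‖ = 1) (hx : x ≠ par 0 c) :
    ∃ t ∈ Ioo 0 (2 * Real.pi), par c t = x := by
  have hpi := Real.pi_pos
  have h1 : Complex.exp ((Complex.arg x : ℂ) * Complex.I) = x := by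
    have h2 := Complex.norm_mul_exp_arg_mul_I x
    rwa [hx1, Complex.ofReal_one, one_mul] at h2
  set a := Complex.arg x
  have h2p : (0 : ℝ) < 2 * Real.pi := by positivity
  have h5 := toIcoMod_add_toIcoDiv_zsmul h2p 0 (a - c)
  rw [zsmul_eq_mul] at h5
  have key : ∀ s : ℝ, s + toIcoDiv h2p 0 (a - c) * (2 * Real.pi) = a - c → par c s = x := by
    intro s hs
    unfold par
    rw [← h1, Complex.exp_eq_exp_iff_exists_int]
    refine ⟨-toIcoDiv h2p 0 (a - c), ?_⟩
    have h6 : s + c = a + -toIcoDiv h2p 0 (a - c) * (2 * Real.pi) := by linarith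
    rw [h6]
    push_cast
    ring
  refine ⟨toIcoMod h2p 0 (a - c), ?_, key _ h5⟩
  have h3 := toIcoMod_mem_Ico h2p 0 (a - c)
  rw [zero_add] at h3
  refine ⟨lt_of_le_of_ne h3.1 ?_, h3.2⟩
  intro h4
  apply hx
  rw [← h4] at h5
  rw [← key 0 h5]
  unfold par
  rw [zero_add, add_zero]

/-- The singular inner function of a measure on the circle. -/
noncomputable def SC (μ : Measure ℂ) (z : ℂ) : ℂ :=
  Complex.exp (-∫ ζ, (ζ + z) / (ζ - z) ∂μ)

lemma SC_map (c : ℝ) (μ : Measure ℝ) (z : ℂ) :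
    SC (μ.map (par c)) z = SI μ (Complex.exp (-((c : ℂ) * Complex.I)) * z) := by
  unfold SC SI
  congr 2
  rw [integral_map (par_meas c).aemeasurable]
  · congr 1
    funext t
    unfold ker
    rw [par_coe]
    have h1 : Complex.exp ((c : ℂ) * Complex.I) * Complex.exp (-((c : ℂ) * Complex.I)) = 1 := by
      rw [← Complex.exp_add, add_neg_cancel, Complex.exp_zero]
    have h2 : z = Complex.exp ((c : ℂ) * Complex.I) *
        (Complex.exp (-((c : ℂ) * Complex.I)) * z) := by
      rw [← mul_assoc, h1, one_mul]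
    have h3 : Complex.exp ((c : ℂ) * Complex.I) ≠ 0 := Complex.exp_ne_zero _
    conv_lhs => rw [h2]
    rw [mul_comm (Complex.exp ((t : ℂ) * Complex.I)), ← mul_add, ← mul_sub,
      mul_div_mul_left _ _ h3]
  · exact (by fun_prop : Measurable fun ζ : ℂ => (ζ + z) / (ζ - z)).aestronglyMeasurable

lemma rot_norm (c : ℝ) {z : ℂ} (hz : ‖z‖ < 1) : ‖Complex.exp (-((c : ℂ) * Complex.I)) * z‖ < 1 := by
  rw [norm_mul]
  have h1 : ‖Complex.exp (-((c : ℂ) * Complex.I))‖ = 1 := by
    have h2 : -((c : ℂ) * Complex.I) = ((-c : ℝ) : ℂ) * Complex.I := by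
      push_cast
      ring
    rw [h2, Complex.norm_exp_ofReal_mul_I]
  rw [h1, one_mul]
  exact hz

/-- There is a point outside a countable subset of the circle. -/
lemma exists_notMem {C : Set ℂ} (hC : C.Countable) : ∃ c : ℝ, par 0 c ∉ C := by
  by_contra h
  push Not at h
  have h1 : MapsTo (par 0) (Ioo 0 (2 * Real.pi)) C := fun t _ => h t
  have h2 : (Ioo (0 : ℝ) (2 * Real.pi)).Countable := h1.countable_of_injOn (par_inj 0) hC
  have h3 := h2.measure_zero volume
  rw [Real.volume_Ioo, ENNReal.ofReal_eq_zero] at h3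
  linarith [Real.pi_pos]

lemma decompC {α : Measure ℂ} {D : Set ℂ} (hD : D.Countable)
    (hα : α Dᶜ = 0) :
    α = Measure.sum (fun x : D => α {x.1} • Measure.dirac x.1) := by
  ext S hS
  rw [Measure.sum_apply _ hS]
  have h1 : α S = α (⋃ x ∈ D, ({x} ∩ S)) := by
    apply le_antisymm
    · calc α S ≤ α ((⋃ x ∈ D, ({x} ∩ S)) ∪ Dᶜ) := by
            apply measure_mono
            intro x hx
            by_cases hxD : x ∈ D
            · left
              exact mem_biUnion hxD ⟨rfl, hx⟩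
            · right
              exact hxD
        _ ≤ α (⋃ x ∈ D, ({x} ∩ S)) + α Dᶜ := measure_union_le _ _
        _ = α (⋃ x ∈ D, ({x} ∩ S)) := by rw [hα, add_zero]
    · apply measure_mono
      exact iUnion₂_subset (fun x _ => inter_subset_right)
  rw [h1, measure_biUnion hD]
  · congr 1
    ext x
    rw [Measure.smul_apply, Measure.dirac_apply' _ hS, smul_eq_mul]
    by_cases hx : x.1 ∈ S
    · rw [indicator_of_mem hx, singleton_inter_of_mem hx]
      simp
    · rw [indicator_of_notMem hx, singleton_inter_of_notMem hx]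
      simp
  · intro x _ y _ hxy
    refine Disjoint.mono inter_subset_left inter_subset_left ?_
    exact disjoint_singleton.2 hxy
  · intro x _
    exact (measurableSet_singleton x).inter hS

/-- A discrete measure on the circle is the image of one on `(0, 2π)`. -/
lemma exists_lift {α : Measure ℂ} (hf : IsFiniteMeasure α) (hs : α {ζ | ‖ζ‖ = 1}ᶜ = 0)
    {C : Set ℂ} (hC : C.Countable)
    (hα : α Cᶜ = 0) : ∃ (c : ℝ) (α' : Measure ℝ), Disc α' ∧ α'.map (par c) = α := by
  obtain ⟨C₁, hC₁⟩ : ∃ C₁ : Set ℂ, C₁ = C ∩ {ζ | ‖ζ‖ = 1} := ⟨_, rfl⟩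
  have hCc : C₁.Countable := hC₁ ▸ hC.mono inter_subset_left
  have hα1 : α C₁ᶜ = 0 := by
    rw [hC₁, compl_inter]
    exact le_antisymm ((measure_union_le _ _).trans (by rw [hα, hs, add_zero])) (zero_le)
  obtain ⟨c, hc⟩ := exists_notMem hCc
  have h1 : ∀ x : C₁, ∃ t ∈ Ioo 0 (2 * Real.pi), par c t = x.1 := fun x =>
    par_surj c x.1 (by
      have h2 : x.1 ∈ C ∩ {ζ : ℂ | ‖ζ‖ = 1} := hC₁ ▸ x.2
      exact h2.2) (fun h => hc (h ▸ x.2))
  choose θ hθ1 hθ2 using h1
  have hcount : Countable C₁ := hCc.to_subtype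
  have hmap : (Measure.sum (fun x : C₁ => α {x.1} • Measure.dirac (θ x))).map (par c) = α := by
    conv_rhs => rw [decompC hCc hα1]
    rw [Measure.map_sum (par_meas c).aemeasurable]
    congr 1
    funext x
    rw [Measure.map_smul, Measure.map_dirac' (par_meas c), hθ2]
  refine ⟨c, Measure.sum (fun x : C₁ => α {x.1} • Measure.dirac (θ x)), ⟨?_, ?_, range θ, ?_, ?_⟩,
    hmap⟩
  · refine ⟨?_⟩
    have h2 : (Measure.sum (fun x : C₁ => α {x.1} • Measure.dirac (θ x))).map (par c) univ =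
        α univ := by rw [hmap]
    rw [Measure.map_apply (par_meas c) MeasurableSet.univ, preimage_univ] at h2
    rw [h2]
    exact measure_lt_top _ _
  · refine sum_null measurableSet_Ioo.compl (fun x => ?_)
    rw [Measure.smul_apply, Measure.dirac_apply' _ measurableSet_Ioo.compl,
      indicator_of_notMem (by simpa using hθ1 x), smul_zero]
  · exact countable_range θ
  · refine sum_null (countable_range θ).measurableSet.compl (fun x => ?_)
    rw [Measure.smul_apply, Measure.dirac_apply' _ (countable_range θ).measurableSet.compl,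
      indicator_of_notMem (by simp), smul_zero]

/-- The arc length on the circle. -/
noncomputable def arc : Measure ℂ :=
  (volume.restrict (Ico 0 (2 * Real.pi))).map fun t : ℝ => Complex.exp ((t : ℂ) * Complex.I)

lemma map_cts (c : ℝ) {ν : Measure ℝ} (hν : Cts ν) : IsFiniteMeasure (ν.map (par c)) ∧
    (ν.map (par c)) ⟂ₘ arc ∧ ∀ x, (ν.map (par c)) {x} = 0 := by
  obtain ⟨hf, hI, hs, ha⟩ := hν
  refine ⟨inferInstance, ?_, ?_⟩
  · obtain ⟨S, hS, h1, h2⟩ := hs
    obtain ⟨N, hN⟩ : ∃ N : Set ℝ, N = Sᶜ ∩ Ioo 0 (2 * Real.pi) := ⟨_, rfl⟩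
    have hNm : MeasurableSet N := by
      rw [hN]
      exact hS.compl.inter measurableSet_Ioo
    have hN0 : volume N = 0 := by
      rw [hN]
      exact measure_mono_null inter_subset_left h2
    have hNν : ν Nᶜ = 0 := by
      rw [hN, compl_inter, compl_compl]
      exact le_antisymm ((measure_union_le _ _).trans (by rw [h1, hI, add_zero])) (zero_le)
    have himg : MeasurableSet (par c '' N) :=
      hNm.image_of_continuousOn_injOn (par_cont c).continuousOn
        ((par_inj c).mono (by rw [hN]; exact inter_subset_right))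
    refine ⟨(par c '' N)ᶜ, himg.compl, ?_, ?_⟩
    · rw [Measure.map_apply (par_meas c) himg.compl]
      refine measure_mono_null ?_ hNν
      intro t ht htN
      exact ht (mem_image_of_mem _ htN)
    · rw [compl_compl]
      unfold arc
      rw [Measure.map_apply (by fun_prop) himg]
      refine le_antisymm ((Measure.restrict_apply_le _ _).trans ?_) (zero_le)
      have h3 : (fun t : ℝ => Complex.exp ((t : ℂ) * Complex.I)) ⁻¹' (par c '' N) ⊆
          ⋃ m : ℤ, (fun t : ℝ => t + (-c - m * (2 * Real.pi))) ⁻¹' N := by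
        rintro s ⟨t, ht, hst⟩
        have hst' : par 0 s = par c t := by
          rw [hst]
          unfold par
          rw [add_zero]
        obtain ⟨m, hm⟩ := par_eq hst'
        refine mem_iUnion.2 ⟨m, ?_⟩
        show s + (-c - m * (2 * Real.pi)) ∈ N
        have h4 : s + (-c - m * (2 * Real.pi)) = t := by linarith
        rw [h4]
        exact ht
      refine (measure_mono h3).trans ?_
      refine le_of_eq (measure_iUnion_null fun m => ?_)
      rw [measure_preimage_add_right]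
      exact hN0
  · intro x
    rw [Measure.map_apply (par_meas c) (measurableSet_singleton x)]
    have h1 : ν ((par c ⁻¹' {x}) ∩ Ioo 0 (2 * Real.pi)) = 0 := by
      have h2 : ((par c ⁻¹' {x}) ∩ Ioo 0 (2 * Real.pi)).Subsingleton := by
        rintro s ⟨hs1, hs2⟩ t ⟨ht1, ht2⟩
        exact par_inj c hs2 ht2 (hs1.trans ht1.symm)
      rcases h2.eq_empty_or_singleton with h3 | ⟨t, h3⟩
      · rw [h3, measure_empty]
      · rw [h3]
        exact ha t
    refine le_antisymm ?_ (zero_le)
    calc ν (par c ⁻¹' {x}) ≤ ν (((par c ⁻¹' {x}) ∩ Ioo 0 (2 * Real.pi)) ∪ (Ioo 0 (2 * Real.pi))ᶜ) := by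
          apply measure_mono
          intro t ht
          by_cases h : t ∈ Ioo 0 (2 * Real.pi)
          · exact Or.inl ⟨ht, h⟩
          · exact Or.inr h
      _ ≤ _ := (measure_union_le _ _).trans (by rw [h1, hI, add_zero])

lemma map_sphere (c : ℝ) (μ : Measure ℝ) : (μ.map (par c)) {ζ | ‖ζ‖ = 1}ᶜ = 0 := by
  have hm : MeasurableSet {ζ : ℂ | ‖ζ‖ = 1} := measurableSet_eq_fun (by fun_prop) (by fun_prop)
  rw [Measure.map_apply (par_meas c) hm.compl]
  have h1 : par c ⁻¹' {ζ | ‖ζ‖ = 1}ᶜ = ∅ := by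
    ext t
    simp [par_norm]
  rw [h1, measure_empty]

/-- The theorem for measures on the circle. -/
theorem circle_dense {α : Measure ℂ} (hf : IsFiniteMeasure α) (hs : α {ζ | ‖ζ‖ = 1}ᶜ = 0)
    {C : Set ℂ} (hC : C.Countable) (hα : α Cᶜ = 0) {ε : ℝ} (hε : 0 < ε) :
    ∃ μ : Measure ℂ, IsFiniteMeasure μ ∧ μ {ζ | ‖ζ‖ = 1}ᶜ = 0 ∧
      (∃ C' : Set ℂ, C'.Countable ∧ μ C'ᶜ = 0) ∧
      α ≤ μ ∧ μ univ ≤ α univ + ENNReal.ofReal ε ∧
      ∀ δ : ℝ, 0 < δ → ∃ ν : Measure ℂ, IsFiniteMeasure ν ∧ ν {ζ | ‖ζ‖ = 1}ᶜ = 0 ∧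
        ν ⟂ₘ arc ∧ (∀ x, ν {x} = 0) ∧
        ν univ ≤ μ univ + ENNReal.ofReal δ ∧
        ∀ z : ℂ, ‖z‖ < 1 → ‖SC μ z - SC ν z‖ ≤ δ := by
  obtain ⟨c, α', hα', hmap⟩ := exists_lift hf hs hC hα
  obtain ⟨μ', ⟨hμf, hμI, D, hD, hμD⟩, hle, hmass, H⟩ := dense_exists hα' hε
  have huniv : ∀ m : Measure ℝ, (m.map (par c)) univ = m univ := fun m => by
    rw [Measure.map_apply (par_meas c) MeasurableSet.univ, preimage_univ]
  refine ⟨μ'.map (par c), inferInstance, map_sphere c μ', ⟨par c '' D, hD.image _, ?_⟩, ?_, ?_, ?_⟩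
  · rw [Measure.map_apply (par_meas c) (hD.image _).measurableSet.compl]
    refine measure_mono_null ?_ hμD
    intro t ht htN
    exact ht (mem_image_of_mem _ htN)
  · rw [← hmap]
    exact Measure.map_mono hle (par_meas c)
  · rw [huniv, ← hmap, huniv]
    exact hmass
  · intro δ hδ
    obtain ⟨ν', hν', hνm, hz⟩ := H δ hδ
    obtain ⟨h1, h2, h3⟩ := map_cts c hν'
    refine ⟨ν'.map (par c), h1, map_sphere c ν', h2, h3, by rw [huniv, huniv]; exact hνm,
      fun z hz1 => ?_⟩
    rw [SC_map c μ' z, SC_map c ν' z]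
    exact hz _ (rot_norm c hz1)

end Pool.Agent.MP_12605b_an
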