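import Pool.Agent.MP_12605b_an.Assembly

/-!
Every discrete measure can be completed by a discrete measure of small mass such that the singular inner
function of the sum is a uniform limit of continuous singular inner functions.
-/

set_option autoImplicit false

open MeasureTheory Set Filter Topology
open scoped ENNReal

namespace Pool.Agent.MP_12605b_an

/-- The recursive construction from the measure `α`. -/
noncomputable def rg (α : Measure ℝ) (A : Measure ℝ → ℕ → Measure ℝ) : ℕ → Measure ℝ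
  | 0 => α
  | (n + 1) => A (∑ l : Fin (n + 1), if sx (n + 1) ≤ l.1 then rg α A l.1 else 0) (n + 1)
termination_by n => n
decreasing_by exact l.2

lemma rg_zero (α : Measure ℝ) (A : Measure ℝ → ℕ → Measure ℝ) : rg α A 0 = α := by
  rw [rg]

lemma rg_succ (α : Measure ℝ) (A : Measure ℝ → ℕ → Measure ℝ) (n : ℕ) :
    rg α A (n + 1) = A (∑ l ∈ Finset.Ico (sx (n + 1)) (n + 1), rg α A l) (n + 1) := by
  rw [rg]
  congr 1
  rw [Fin.sum_univ_eq_sum_range (fun l => if sx (n + 1) ≤ l then rg α A l else 0) (n + 1),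
    ← Finset.sum_filter]
  apply Finset.sum_congr _ (fun _ _ => rfl)
  ext l
  simp only [Finset.mem_filter, Finset.mem_range, Finset.mem_Ico]
  omega

theorem dense_exists {α : Measure ℝ} (hα : Disc α) {ε : ℝ} (hε : 0 < ε) :
    ∃ μ : Measure ℝ, Disc μ ∧ α ≤ μ ∧ μ univ ≤ α univ + ENNReal.ofReal ε ∧
      ∀ δ : ℝ, 0 < δ → ∃ ν : Measure ℝ, Cts ν ∧ ν univ ≤ μ univ + ENNReal.ofReal δ ∧
        ∀ z : ℂ, ‖z‖ < 1 → ‖SI μ z - SI ν z‖ ≤ δ := by
  have hpow0 : ∀ n : ℕ, 0 < ε * (1/2 : ℝ)^n := fun n => by positivity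
  have H : ∀ (α : Measure ℝ) (n : ℕ), ∃ ρ ν : Measure ℝ, Disc α → (Disc ρ ∧ Cts ν ∧
      ρ univ ≤ ENNReal.ofReal (ε * (1/2 : ℝ)^n) ∧
      ν univ ≤ α univ + ENNReal.ofReal (ε * (1/2 : ℝ)^n) ∧
      ∀ z : ℂ, ‖z‖ < 1 → ‖SI (α + ρ) z - SI ν z‖ ≤ ε * (1/2 : ℝ)^n) := by
    intro α n
    by_cases hα : Disc α
    · obtain ⟨ρ, ν, h⟩ := lemmaA hα (hpow0 n)
      exact ⟨ρ, ν, fun _ => h⟩
    · exact ⟨0, 0, fun h => absurd h hα⟩
  choose A B hAB using H
  obtain ⟨ρ, hρ⟩ : ∃ ρ : ℕ → Measure ℝ, ρ = rg α A := ⟨_, rfl⟩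
  have hρ0 : ρ 0 = α := by rw [hρ, rg_zero]
  have hρs : ∀ n, ρ (n + 1) = A (∑ l ∈ Finset.Ico (sx (n + 1)) (n + 1), ρ l) (n + 1) := by
    intro n
    rw [hρ]
    exact rg_succ α A n
  have hD : ∀ n, Disc (ρ n) := by
    intro n
    induction n using Nat.strong_induction_on with
    | _ n ih =>
      rcases n with _ | n
      · rw [hρ0]
        exact hα
      · rw [hρs n]
        refine (hAB _ (n + 1) (Disc_finset _ ?_)).1
        intro l hl
        exact ih l (Finset.mem_Ico.1 hl).2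
  have hblock : ∀ n, Disc (∑ l ∈ Finset.Ico (sx n) n, ρ l) := fun n => Disc_finset _ (fun l _ => hD l)
  have hρeq : ∀ n, 1 ≤ n → ρ n = A (∑ l ∈ Finset.Ico (sx n) n, ρ l) n := by
    intro n hn
    obtain ⟨m, rfl⟩ : ∃ m, n = m + 1 := ⟨n - 1, by omega⟩
    exact hρs m
  obtain ⟨β, hβ⟩ : ∃ β : ℕ → Measure ℝ, β = fun n => B (∑ l ∈ Finset.Ico (sx n) n, ρ l) n := ⟨_, rfl⟩
  have hspec : ∀ n, 1 ≤ n → (ρ n univ ≤ ENNReal.ofReal (ε * (1/2 : ℝ)^n) ∧ Cts (β n) ∧
      β n univ ≤ (∑ l ∈ Finset.Ico (sx n) (n + 1), ρ l) univ + ENNReal.ofReal (ε * (1/2 : ℝ)^n) ∧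
      ∀ z : ℂ, ‖z‖ < 1 →
        ‖SI (∑ l ∈ Finset.Ico (sx n) (n + 1), ρ l) z - SI (β n) z‖ ≤ ε * (1/2 : ℝ)^n) := by
    intro n hn
    have h := hAB _ n (hblock n)
    rw [← hρeq n hn] at h
    obtain ⟨-, h2, h3, h4, h5⟩ := h
    rw [hβ]
    refine ⟨h3, h2, ?_, ?_⟩
    · refine h4.trans (add_le_add ?_ le_rfl)
      rw [Finset.sum_Ico_succ_top (sx_le n), Measure.add_apply]
      exact le_self_add
    · intro z hz
      rw [Finset.sum_Ico_succ_top (sx_le n)]
      exact h5 z hz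
  have hgeo : HasSum (fun n : ℕ => (1/2 : ℝ)^n) 2 := hasSum_geometric_two
  have hgeo1 : HasSum (fun n : ℕ => ε * (1/2 : ℝ)^(n + 1)) ε := by
    have h1 := hgeo.mul_left (ε * (1/2))
    have h2 : ε * (1/2) * 2 = ε := by ring
    rw [h2] at h1
    have h3 : (fun n : ℕ => ε * (1/2 : ℝ)^(n + 1)) = fun n => ε * (1/2) * (1/2 : ℝ)^n := by
      funext n
      ring
    rw [h3]
    exact h1
  have hsplit : Measure.sum ρ = α + Measure.sum (fun n => ρ (n + 1)) := by
    ext S hS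
    rw [Measure.add_apply, Measure.sum_apply _ hS, Measure.sum_apply _ hS,
      tsum_eq_zero_add' ENNReal.summable, hρ0]
  have htail : Measure.sum (fun n => ρ (n + 1)) univ ≤ ENNReal.ofReal ε :=
    sum_univ_le (fun n => (hpow0 (n + 1)).le) hgeo1 (fun n => (hspec (n + 1) (by omega)).1)
  have hμu : Measure.sum ρ univ ≤ α univ + ENNReal.ofReal ε := by
    rw [hsplit, Measure.add_apply]
    exact add_le_add le_rfl htail
  have hαf : IsFiniteMeasure α := hα.1
  have hμf : IsFiniteMeasure (Measure.sum ρ) :=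
    ⟨lt_of_le_of_lt hμu (ENNReal.add_lt_top.2 ⟨measure_lt_top _ _, ENNReal.ofReal_lt_top⟩)⟩
  refine ⟨Measure.sum ρ, Disc_sum hD hμf, ?_, hμu, ?_⟩
  · have h1 := Measure.le_sum ρ 0
    rwa [hρ0] at h1
  · intro δ hδ
    obtain ⟨j, hj⟩ := exists_pow_lt_of_lt_one (show 0 < δ / (2 * ε) by positivity)
      (show (1/2 : ℝ) < 1 by norm_num)
    have hj' : ε * (1/2 : ℝ)^j * 2 ≤ δ := by
      rw [lt_div_iff₀ (by positivity)] at hj
      linarith
    obtain ⟨t, htdef⟩ : ∃ t : ℕ → ℕ, t = fun k =>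
      Nat.rec 0 (fun k tk => Nat.pair tk (max tk (j + 1 + k)) + 1) k := ⟨_, rfl⟩
    have ht0 : t 0 = 0 := congrFun htdef 0
    obtain ⟨i, hi⟩ : ∃ i : ℕ → ℕ, i = fun k => Nat.pair (t k) (max (t k) (j + 1 + k)) := ⟨_, rfl⟩
    have hts : ∀ k, t (k + 1) = i k + 1 := by
      intro k
      rw [hi, htdef]
    have hsi : ∀ k, sx (i k) = t k := by
      intro k
      rw [hi]
      exact sx_pair _ _
    have hi1 : ∀ k, j + 1 + k ≤ i k := by
      intro k
      rw [hi]
      exact (le_max_right _ _).trans (Nat.right_le_pair _ _)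
    have hti : ∀ k, t k ≤ i k := by
      intro k
      rw [← hsi k]
      exact sx_le _
    have htm : StrictMono t := by
      apply strictMono_nat_of_lt_succ
      intro k
      rw [hts k]
      exact Nat.lt_succ_of_le (hti k)
    have hre := regroup ρ t ht0 htm
    have hblk : ∀ k, ∑ l ∈ Finset.Ico (sx (i k)) (i k + 1), ρ l = ∑ l ∈ Finset.Ico (t k) (t (k + 1)), ρ l := by
      intro k
      rw [hsi, hts]
    have hsp : ∀ k, _ := fun k => hspec (i k) (by have := hi1 k; omega)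
    have hpow : ∀ k, ε * (1/2 : ℝ)^(i k) ≤ ε * (1/2)^j * (1/2)^k := by
      intro k
      rw [mul_assoc, ← pow_add]
      apply mul_le_mul_of_nonneg_left _ hε.le
      apply pow_le_pow_of_le_one (by norm_num) (by norm_num)
      have := hi1 k
      omega
    have hs := hgeo.mul_left (ε * (1/2 : ℝ)^j)
    have hνu : Measure.sum (fun k => β (i k)) univ ≤ Measure.sum ρ univ + ENNReal.ofReal δ := by
      rw [Measure.sum_apply _ MeasurableSet.univ]
      calc ∑' k, β (i k) univ ≤ ∑' k, ((∑ l ∈ Finset.Ico (t k) (t (k + 1)), ρ l) univ +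
            ENNReal.ofReal (ε * (1/2)^j * (1/2)^k)) := by
            apply ENNReal.tsum_le_tsum
            intro k
            refine (hsp k).2.2.1.trans ?_
            rw [hblk k]
            exact add_le_add le_rfl (ENNReal.ofReal_le_ofReal (hpow k))
        _ ≤ Measure.sum ρ univ + ENNReal.ofReal δ := by
            rw [ENNReal.tsum_add, hre, Measure.sum_apply _ MeasurableSet.univ]
            refine add_le_add le_rfl ?_
            rw [← ENNReal.ofReal_tsum_of_nonneg (fun i => by positivity) hs.summable, hs.tsum_eq]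
            exact ENNReal.ofReal_le_ofReal hj'
    have hνf : IsFiniteMeasure (Measure.sum (fun k => β (i k))) :=
      ⟨lt_of_le_of_lt hνu (ENNReal.add_lt_top.2 ⟨measure_lt_top _ _, ENNReal.ofReal_lt_top⟩)⟩
    refine ⟨Measure.sum (fun k => β (i k)), Cts_sum (fun k => (hsp k).2.1) hνf, hνu, ?_⟩
    intro z hz
    rw [hre] at hμf ⊢
    refine (SI_sum_diff hμf hνf hz hs (fun k => by positivity) (fun k => ?_)).trans hj'
    rw [← hblk k]
    exact ((hsp k).2.2.2 z hz).trans (hpow k)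

end Pool.Agent.MP_12605b_an
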