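import Pool.Agent.MP_12605b_an.Grid

/-!
Field of a family of dipoles, inside a success window and far away.
-/

set_option autoImplicit false

open MeasureTheory Set Filter Topology

namespace Pool.Agent.MP_12605b_an

lemma J_sub {l a : ℝ} (hl : 0 < l) (hal : a ≤ l / 8) (j : ℕ) :
    Icc (cp l j - a) (cp l j + 2 * a) ⊆ J l j := by
  intro u hu
  unfold J
  have h1 := hu.1
  have h2 := hu.2
  unfold cp at h1 h2
  constructor
  · nlinarith
  · nlinarith

lemma win_sub {l a κ : ℝ} (ha : 0 < a) (hl : 0 < l) (hal : a ≤ l / 8) (hκ : κ ≤ 1/2) (j : ℕ) :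
    Ioo (cp l j - κ * a) (cp l j + κ * a) ⊆ J l j := by
  intro u hu
  apply J_sub hl hal
  have : κ * a ≤ a / 2 := by nlinarith
  constructor
  · linarith [hu.1]
  · linarith [hu.2]

lemma window_est {l a κ p q θ : ℝ} (hl : 0 < l) (ha : 0 < a) (ha1 : a ≤ 1) (hal : a ≤ l / 8)
    (hκ : κ ≤ 1/2) (hpq : q - p ≤ Real.pi) {s : Finset ℕ} (hs : ∀ k ∈ s, J l k ⊆ Ioo p q)
    {γ : ℕ → Measure ℝ} (hγp : ∀ k, IsProbabilityMeasure (γ k)) {C : ℕ → Set ℝ}
    (hγ : ∀ k, γ k (C k)ᶜ = 0) (hC : ∀ k, C k ⊆ Icc (cp l k + a) (cp l k + a + κ * a))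
    {lam : ℕ → ℝ} (hlam : ∀ k, 0 ≤ lam k) (hlam2 : ∀ k, lam k ≤ 2 * Real.pi) {k : ℕ} (hk : k ∈ s)
    (hθ : |θ - cp l k| ≤ κ * a) :
    |∑ j ∈ s, dm (lam j) a * (fld (γ j) θ - ck (cp l j - a - θ)) - lam k| ≤
      4 * Real.pi^3 * κ + 6 * Real.pi^3 * (a / l)^2 * CZ := by
  have hpi := Real.pi_pos
  have hκ0 : 0 ≤ κ * a := le_trans (abs_nonneg _) hθ
  rw [← Finset.add_sum_erase s _ hk]
  have e : dm (lam k) a * (fld (γ k) θ - ck (cp l k - a - θ)) +
      ∑ j ∈ s.erase k, dm (lam j) a * (fld (γ j) θ - ck (cp l j - a - θ)) - lam k =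
      (dm (lam k) a * (fld (γ k) θ - ck (cp l k - a - θ)) - lam k) +
      ∑ j ∈ s.erase k, dm (lam j) a * (fld (γ j) θ - ck (cp l j - a - θ)) := by ring
  rw [e]
  refine (abs_add_le _ _).trans ?_
  have hka : κ * a ≤ a / 2 := by nlinarith
  have h1 := @win_own (γ k) (hγp k) (C k) (hγ k) (cp l k) a θ κ (lam k) ha ha1 (hlam k) (hlam2 k) hκ
    (hC k) hθ
  have hθJ : θ ∈ J l k := by
    apply J_sub hl hal
    have := abs_le.1 hθ
    constructor <;> linarith [this.1, this.2]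
  have hθpq := hs k hk hθJ
  have h2 : |∑ j ∈ s.erase k, dm (lam j) a * (fld (γ j) θ - ck (cp l j - a - θ))| ≤
      6 * Real.pi^3 * (a / l)^2 * CZ := by
    refine (Finset.abs_sum_le_sum_abs _ _).trans ?_
    have hterm : ∀ j ∈ s.erase k, |dm (lam j) a * (fld (γ j) θ - ck (cp l j - a - θ))| ≤
        6 * Real.pi^3 * (a / l)^2 * (1 / ((j : ℝ) - k)^2) := by
      intro j hj
      have hjk : j ≠ k := Finset.ne_of_mem_erase hj
      have hjs : j ∈ s := Finset.mem_of_mem_erase hj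
      have hjk' : (j : ℝ) - k ≠ 0 := by
        intro h0
        apply hjk
        have : (j : ℝ) = k := by linarith
        exact_mod_cast this
      have hd : 0 < |(j : ℝ) - k| := abs_pos.2 hjk'
      have hc : 0 < |(j : ℝ) - k| * l / (2 * Real.pi) := by positivity
      have hfar := @far_est (γ j) (hγp j) (C j) (hγ j) (cp l j) a θ (|(j : ℝ) - k| * l / (2 * Real.pi)) ha
        ((hC j).trans (Icc_subset_Icc le_rfl (by linarith))) hc (by
          intro u hu
          have g1 := grid_far hl ha hal hκ hjk hθ hu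
          have hupq := hs j hjs (J_sub hl hal j hu)
          have g2 : |u - θ| ≤ Real.pi := by
            rw [abs_le]
            constructor <;> linarith [hupq.1, hupq.2, hθpq.1, hθpq.2]
          have g3 := sin_half_lower g2
          refine le_trans ?_ g3
          rw [div_le_div_iff₀ (by positivity) hpi]
          nlinarith)
      rw [abs_mul, abs_of_nonneg (dm_nonneg ha ha1 (hlam j))]
      calc dm (lam j) a * |fld (γ j) θ - ck (cp l j - a - θ)|
          ≤ (Real.pi * a) * (3 * a / (2 * (|(j : ℝ) - k| * l / (2 * Real.pi)) ^ 2)) :=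
            mul_le_mul (dm_le ha ha1 (hlam2 j)) hfar (abs_nonneg _) (by positivity)
        _ = 6 * Real.pi^3 * (a / l)^2 * (1 / |(j : ℝ) - k|^2) := by
            field_simp
            ring
        _ = 6 * Real.pi^3 * (a / l)^2 * (1 / ((j : ℝ) - k)^2) := by rw [sq_abs]
    refine (Finset.sum_le_sum hterm).trans ?_
    rw [← Finset.mul_sum]
    apply mul_le_mul_of_nonneg_left (nbr_sum _ _) (by positivity)
  linarith

lemma far_sum {l a κ θ c₀ : ℝ} (hl : 0 < l) (ha : 0 < a) (ha1 : a ≤ 1) (hal : a ≤ l / 8)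
    (hκ : κ ≤ 1/2) {s : Finset ℕ} (hc : 0 < c₀)
    (hs : ∀ k ∈ s, ∀ u ∈ J l k, c₀ ≤ |Real.sin ((u - θ) / 2)|)
    {γ : ℕ → Measure ℝ} (hγp : ∀ k, IsProbabilityMeasure (γ k)) {C : ℕ → Set ℝ}
    (hγ : ∀ k, γ k (C k)ᶜ = 0) (hC : ∀ k, C k ⊆ Icc (cp l k + a) (cp l k + a + κ * a))
    {lam : ℕ → ℝ} (hlam : ∀ k, 0 ≤ lam k) (hlam2 : ∀ k, lam k ≤ 2 * Real.pi) :
    |∑ j ∈ s, dm (lam j) a * (fld (γ j) θ - ck (cp l j - a - θ))| ≤
      s.card * (3 * Real.pi * a^2 / (2 * c₀^2)) := by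
  have hpi := Real.pi_pos
  refine (Finset.abs_sum_le_sum_abs _ _).trans ?_
  have hterm : ∀ j ∈ s, |dm (lam j) a * (fld (γ j) θ - ck (cp l j - a - θ))| ≤
      3 * Real.pi * a^2 / (2 * c₀^2) := by
    intro j hj
    have hka : κ * a ≤ a / 2 := by nlinarith
    have hfar := @far_est (γ j) (hγp j) (C j) (hγ j) (cp l j) a θ c₀ ha
      ((hC j).trans (Icc_subset_Icc le_rfl (by linarith))) hc (by
        intro u hu
        exact hs j hj u (J_sub hl hal j hu))
    rw [abs_mul, abs_of_nonneg (dm_nonneg ha ha1 (hlam j))]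
    calc dm (lam j) a * |fld (γ j) θ - ck (cp l j - a - θ)|
        ≤ (Real.pi * a) * (3 * a / (2 * c₀ ^ 2)) :=
          mul_le_mul (dm_le ha ha1 (hlam2 j)) hfar (abs_nonneg _) (by positivity)
      _ = 3 * Real.pi * a^2 / (2 * c₀^2) := by
          ring
  refine (Finset.sum_le_sum hterm).trans ?_
  simp

end Pool.Agent.MP_12605b_an
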