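import Pool.Agent.MP_12605b_an.Prep

/-!
The greedy step.
-/

set_option autoImplicit false

open MeasureTheory Set Filter Topology
open scoped ENNReal

namespace Pool.Agent.MP_12605b_an

lemma fsum_zero {s : Finset ℕ} {c : ℕ → ℝ≥0∞} {μ : ℕ → Measure ℝ} {S : Set ℝ}
    (h : ∀ k ∈ s, μ k S = 0) : (∑ k ∈ s, c k • μ k) S = 0 := by
  rw [Measure.finsetSum_apply]
  apply Finset.sum_eq_zero
  intro k hk
  rw [Measure.smul_apply, h k hk, smul_zero]

lemma fsum_le {s : Finset ℕ} {c : ℕ → ℝ} {M : ℝ} {μ : ℕ → Measure ℝ}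
    (hμ : ∀ k ∈ s, μ k univ = 1) (hc : ∀ k ∈ s, c k ≤ M) :
    (∑ k ∈ s, ENNReal.ofReal (c k) • μ k) univ ≤ ENNReal.ofReal (s.card * M) := by
  rw [Measure.finsetSum_apply]
  calc ∑ k ∈ s, (ENNReal.ofReal (c k) • μ k) univ ≤ ∑ k ∈ s, ENNReal.ofReal M := by
        apply Finset.sum_le_sum
        intro k hk
        rw [Measure.smul_apply, hμ k hk, smul_eq_mul, mul_one]
        exact ENNReal.ofReal_le_ofReal (hc k hk)
    _ = ENNReal.ofReal (s.card * M) := by
        rw [Finset.sum_const, nsmul_eq_mul, ENNReal.ofReal_mul (Nat.cast_nonneg _),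
          ENNReal.ofReal_natCast]

lemma finite_of_le {μ : Measure ℝ} {x : ℝ} (h : μ univ ≤ ENNReal.ofReal x) : IsFiniteMeasure μ :=
  ⟨lt_of_le_of_lt h ENNReal.ofReal_lt_top⟩

theorem greedy {ε : ℝ} (hε : 0 < ε) : ∃ κ C : ℝ, 0 < κ ∧ κ ≤ 1 ∧ 0 < C ∧
    ∀ (p q : ℝ) (K : Set ℝ) (h : ℝ → ℝ) (ε₁ η : ℝ), 0 < p → q < 2 * Real.pi → q - p ≤ Real.pi →
      IsCompact K → ContinuousOn h (Ioo 0 (2 * Real.pi) \ K) → ε ≤ ε₁ → 0 < η →
      bad h K ε₁ ⊆ Ioo p q →
      ∃ (ρ' ν' : Measure ℝ) (K' : Set ℝ), IsFiniteMeasure ρ' ∧ IsFiniteMeasure ν' ∧ IsCompact K' ∧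
        K' ⊆ Ioo p q ∧ volume K' = 0 ∧ ρ' K'ᶜ = 0 ∧ ν' K'ᶜ = 0 ∧
        (∃ D : Set ℝ, D.Countable ∧ ρ' Dᶜ = 0) ∧ (∀ x, ν' {x} = 0) ∧
        ρ' univ ≤ ENNReal.ofReal (C * (volume.real (bad h K ε₁) + η)) ∧
        ν' univ ≤ ENNReal.ofReal (C * (volume.real (bad h K ε₁) + η)) ∧
        bad (fun θ => h θ + (fld ν' θ - fld ρ' θ)) (K ∪ K') (ε₁ + η) ⊆ Ioo p q ∧
        volume.real (bad (fun θ => h θ + (fld ν' θ - fld ρ' θ)) (K ∪ K') (ε₁ + η)) ≤
          (1 - κ) * volume.real (bad h K ε₁) + η := by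
  have hpi := Real.pi_pos
  have hCZ := CZ_nonneg
  obtain ⟨κ₁, hκ₁def⟩ : ∃ x : ℝ, x = min (1/2) (ε / (32 * Real.pi^3)) := ⟨_, rfl⟩
  obtain ⟨η₀, hη₀def⟩ : ∃ x : ℝ, x = min (1/8) (ε / (48 * Real.pi^3 * (CZ + 1))) := ⟨_, rfl⟩
  have hκ₁ : 0 < κ₁ := by rw [hκ₁def]; positivity
  have hη₀ : 0 < η₀ := by rw [hη₀def]; positivity
  have hκ₁a : κ₁ ≤ 1/2 := hκ₁def ▸ min_le_left _ _
  have hκ₁b : 4 * Real.pi^3 * κ₁ ≤ ε / 8 := by
    have h1 : κ₁ ≤ ε / (32 * Real.pi^3) := hκ₁def ▸ min_le_right _ _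
    calc 4 * Real.pi^3 * κ₁ ≤ 4 * Real.pi^3 * (ε / (32 * Real.pi^3)) :=
          mul_le_mul_of_nonneg_left h1 (by positivity)
      _ = ε / 8 := by
          field_simp
          norm_num
  have hη₀a : η₀ ≤ 1/8 := hη₀def ▸ min_le_left _ _
  have hη₀b : 6 * Real.pi^3 * η₀^2 * CZ ≤ ε / 8 := by
    have h1 : η₀ ≤ ε / (48 * Real.pi^3 * (CZ + 1)) := hη₀def ▸ min_le_right _ _
    have h2 : η₀^2 ≤ η₀ := by nlinarith
    calc 6 * Real.pi^3 * η₀^2 * CZ ≤ 6 * Real.pi^3 * η₀ * (CZ + 1) := by gcongr; linarith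
      _ ≤ 6 * Real.pi^3 * (ε / (48 * Real.pi^3 * (CZ + 1))) * (CZ + 1) := by gcongr
      _ = ε / 8 := by
          field_simp
          norm_num
  have hκle : 2 * κ₁ * η₀ ≤ 1 := by nlinarith
  refine ⟨2 * κ₁ * η₀, Real.pi * η₀, by positivity, hκle, by positivity, ?_⟩
  intro p q K h ε₁ η hp hq hpq hK hh hε₁ hη hB
  obtain ⟨B', V, δ, c₀, hB'c, hVo, hB'B, hVU, hB'V, hδ, hc₀, hthV, hv1, hv2, huc, hsep⟩ :=
    prep hp hq hK hh (ε := ε / 4) (by positivity) hη hB
  have hpqs : Ioo p q ⊆ Ioo 0 (2 * Real.pi) := Ioo_subset_Ioo hp.le hq.le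
  obtain ⟨l, hldef⟩ : ∃ x : ℝ, x = min (min 1 (δ / 2)) (η * c₀^2 / (3 * Real.pi^2)) := ⟨_, rfl⟩
  have hl : 0 < l := by rw [hldef]; positivity
  have hl1 : l ≤ 1 := hldef ▸ (min_le_left _ _).trans (min_le_left _ _)
  have hlδ2 : l ≤ δ / 2 := hldef ▸ (min_le_left _ _).trans (min_le_right _ _)
  have hlδ : l ≤ δ := by linarith
  have hlη : l ≤ η * c₀^2 / (3 * Real.pi^2) := hldef ▸ min_le_right _ _
  obtain ⟨a, hadef⟩ : ∃ x : ℝ, x = η₀ * l := ⟨_, rfl⟩
  have ha : 0 < a := by rw [hadef]; positivity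
  have hal : a ≤ l / 8 := by rw [hadef]; nlinarith
  have ha1 : a ≤ 1 := by linarith
  have hal2 : a / l = η₀ := by rw [hadef]; field_simp
  choose γ C hγp hCc hCs hC0 hγC hγa using
    fun k : ℕ => exists_cantor (cp l k + a) (κ₁ * a) (by positivity)
  choose lam hlam hlam2 m hm using fun k : ℕ => exists_phase (h (cp l k))
  obtain ⟨s, hs⟩ : ∃ s, s = cells l B' := ⟨_, rfl⟩
  have hJT : ∀ k ∈ s, J l k ⊆ Metric.cthickening δ B' := by
    intro k hk
    rw [hs] at hk
    exact cells_sub hlδ hk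
  have hJV : ∀ k ∈ s, J l k ⊆ V := fun k hk => (hJT k hk).trans hthV
  have hJpq : ∀ k ∈ s, J l k ⊆ Ioo p q := fun k hk x hx => (hVU (hJV k hk hx)).1
  have hka : κ₁ * a ≤ a / 2 := by nlinarith
  have hCJ : ∀ k, C k ⊆ J l k := by
    intro k x hx
    have := hCs k hx
    apply J_sub hl hal
    constructor
    · linarith [this.1]
    · linarith [this.2]
  have hpJ : ∀ k, cp l k - a ∈ J l k := fun k => J_sub hl hal k ⟨le_rfl, by linarith⟩
  have hcJ : ∀ k, cp l k ∈ J l k := fun k => J_sub hl hal k ⟨by linarith, by linarith⟩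
  -- volumes
  have hB'sub : B' ⊆ Ioo 0 (2 * Real.pi) := fun x hx => hpqs (hB (hB'B hx))
  have hVfin : volume V ≠ ⊤ := by
    refine ((measure_mono (fun x hx => (hVU hx).1)).trans_lt (?_ : volume (Ioo p q) < ⊤)).ne
    rw [Real.volume_Ioo]
    exact ENNReal.ofReal_lt_top
  have hcardlow : volume.real B' ≤ s.card * l := by
    rw [hs]
    exact cells_lower hl hB'sub
  have hcardup : s.card * l ≤ volume.real V :=
    card_upper' hVfin s hJV (fun k _ => J_meas l k) (fun k _ => J_vol hl k)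
      (fun j _ k _ hjk => J_disj hl hjk)
  have hVpi : volume.real V ≤ Real.pi := by
    have h1 : volume.real V ≤ volume.real (Ioo p q) := by
      refine measureReal_mono (fun x hx => (hVU hx).1) ?_
      rw [Real.volume_Ioo]
      exact ENNReal.ofReal_ne_top
    rw [Real.volume_real_Ioo] at h1
    exact h1.trans (max_le hpq hpi.le)
  have hB'vol : volume.real B' ≤ volume.real (bad h K ε₁) :=
    measureReal_mono hB'B (bad_fin h K ε₁).ne
  have hcardB : s.card * l ≤ volume.real (bad h K ε₁) + η := by linarith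
  -- the measures
  obtain ⟨K', hK'⟩ : ∃ K' : Set ℝ, K' = ⋃ k ∈ s, ({cp l k - a} ∪ C k) := ⟨_, rfl⟩
  have hK'c : IsCompact K' := by
    rw [hK']
    exact s.isCompact_biUnion (fun k _ => isCompact_singleton.union (hCc k))
  have hK'V : K' ⊆ V := by
    rw [hK']
    refine iUnion₂_subset (fun k hk => union_subset ?_ ?_)
    · exact singleton_subset_iff.2 (hJV k hk (hpJ k))
    · exact (hCJ k).trans (hJV k hk)
  have hK'pq : K' ⊆ Ioo p q := fun x hx => (hVU (hK'V hx)).1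
  have hK'0 : volume K' = 0 := by
    rw [hK']
    refine (measure_biUnion_null_iff s.countable_toSet).2 ?_
    intro k _
    rw [measure_union_null_iff]
    exact ⟨by simp, hC0 k⟩
  have hmass : Real.pi * a * s.card ≤ Real.pi * η₀ * (volume.real (bad h K ε₁) + η) := by
    rw [hadef]
    calc Real.pi * (η₀ * l) * s.card = Real.pi * η₀ * (s.card * l) := by ring
      _ ≤ _ := mul_le_mul_of_nonneg_left hcardB (by positivity)
  have hρu : rhoM l a s lam univ ≤ ENNReal.ofReal (Real.pi * η₀ * (volume.real (bad h K ε₁) + η)) := by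
    refine (fsum_le (M := Real.pi * a) ?_ ?_).trans ?_
    · intro k _
      simp
    · intro k _
      exact dm_le ha ha1 (hlam2 k)
    · apply ENNReal.ofReal_le_ofReal
      linarith
  have hνu : nuM a s lam γ univ ≤ ENNReal.ofReal (Real.pi * η₀ * (volume.real (bad h K ε₁) + η)) := by
    refine (fsum_le (M := Real.pi * a) ?_ ?_).trans ?_
    · intro k _
      exact (hγp k).measure_univ
    · intro k _
      exact dm_le ha ha1 (hlam2 k)
    · apply ENNReal.ofReal_le_ofReal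
      linarith
  -- the new field
  have hfld : ∀ θ ∈ Ioo 0 (2 * Real.pi) \ (K ∪ K'),
      fld (nuM a s lam γ) θ - fld (rhoM l a s lam) θ =
      ∑ k ∈ s, dm (lam k) a * (fld (γ k) θ - ck (cp l k - a - θ)) := by
    intro θ hθ
    apply dipole_fld ha ha1 hlam
    intro k hk
    have := hγp k
    refine ck_integrable' (hCc k) (fun x hx => hpqs (hJpq k hk (hCJ k hx))) (hγC k)
      (Ioo_subset_Icc_self hθ.1) ?_
    intro hθC
    apply hθ.2
    right
    rw [hK']
    exact mem_biUnion hk (Or.inr hθC)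
  have hout : ∀ θ ∈ Ioo 0 (2 * Real.pi) \ (K ∪ K'), θ ∉ V →
      |fld (nuM a s lam γ) θ - fld (rhoM l a s lam) θ| ≤ η := by
    intro θ hθ hθV
    rw [hfld θ hθ]
    refine (far_sum (κ := κ₁) hl ha ha1 hal hκ₁a hc₀ ?_ hγp hγC hCs hlam hlam2).trans ?_
    · intro k hk u hu
      exact hsep u (hJT k hk hu) θ ⟨Ioo_subset_Icc_self hθ.1, hθV⟩
    · have h1 : (s.card : ℝ) * l ≤ Real.pi := hcardup.trans hVpi
      have h2 : η₀^2 ≤ 1 := by nlinarith
      have h3 : (s.card : ℝ) * (3 * Real.pi * a ^ 2 / (2 * c₀ ^ 2)) =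
          (s.card * l) * (η₀^2 * (3 * Real.pi / (2 * c₀^2)) * l) := by
        rw [hadef]
        ring
      rw [h3]
      calc (s.card * l) * (η₀^2 * (3 * Real.pi / (2 * c₀^2)) * l)
          ≤ Real.pi * (1 * (3 * Real.pi / (2 * c₀^2)) * (η * c₀^2 / (3 * Real.pi^2))) := by
            gcongr
        _ = η / 2 := by
            field_simp
        _ ≤ η := by linarith
  have hwin : ∀ θ ∈ Ioo 0 (2 * Real.pi) \ (K ∪ K'), ∀ k ∈ s,
      θ ∈ Ioo (cp l k - κ₁ * a) (cp l k + κ₁ * a) →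
      |h θ + (fld (nuM a s lam γ) θ - fld (rhoM l a s lam) θ) - 2 * Real.pi * m k| ≤ ε / 2 := by
    intro θ hθ k hk hθk
    rw [hfld θ hθ]
    have hθ1 : |θ - cp l k| ≤ κ₁ * a := by
      rw [abs_le]
      constructor <;> linarith [hθk.1, hθk.2]
    have h1 := window_est hl ha ha1 hal hκ₁a hpq hJpq hγp hγC hCs hlam hlam2 hk hθ1
    rw [hal2] at h1
    have hθJ := win_sub ha hl hal hκ₁a k hθk
    have h2 := huc θ (hJT k hk hθJ) (cp l k) (hJT k hk (hcJ k)) (by
      refine lt_of_le_of_lt hθ1 ?_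
      linarith)
    have h3 := hm k
    have e : h θ + ∑ j ∈ s, dm (lam j) a * (fld (γ j) θ - ck (cp l j - a - θ)) - 2 * Real.pi * m k =
        (h θ - h (cp l k)) +
        (∑ j ∈ s, dm (lam j) a * (fld (γ j) θ - ck (cp l j - a - θ)) - lam k) := by
      rw [← h3]
      ring
    rw [e]
    refine (abs_add_le _ _).trans ?_
    linarith
  -- location of the new bad set
  obtain ⟨W, hW⟩ : ∃ W : ℕ → Set ℝ, W = fun k => Ioo (cp l k - κ₁ * a) (cp l k + κ₁ * a) := ⟨_, rfl⟩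
  have hWJ : ∀ k, W k ⊆ J l k := by
    intro k
    rw [hW]
    exact win_sub ha hl hal hκ₁a k
  obtain ⟨N, hN⟩ : ∃ N : Set ℝ, N = bad (fun θ => h θ + (fld (nuM a s lam γ) θ -
    fld (rhoM l a s lam) θ)) (K ∪ K') (ε₁ + η) := ⟨_, rfl⟩
  have hNsub : N ⊆ (bad h K ε₁ \ V) ∪ (V \ ⋃ k ∈ s, W k) := by
    intro θ hθN
    rw [hN] at hθN
    by_cases hθV : θ ∈ V
    · right
      refine ⟨hθV, ?_⟩
      intro hθW
      obtain ⟨k, hk, hθk⟩ := mem_iUnion₂.1 hθW
      rw [hW] at hθk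
      have h1 := hwin θ hθN.1 k hk hθk
      have h2 := hθN.2 (m k)
      linarith
    · left
      refine ⟨⟨⟨hθN.1.1, fun hK => hθN.1.2 (Or.inl hK)⟩, ?_⟩, hθV⟩
      intro n
      have h1 := hθN.2 n
      have h2 := hout θ hθN.1 hθV
      have h3 : |h θ + (fld (nuM a s lam γ) θ - fld (rhoM l a s lam) θ) - 2 * Real.pi * n| ≤
          |h θ - 2 * Real.pi * n| + |fld (nuM a s lam γ) θ - fld (rhoM l a s lam) θ| := by
        have e : h θ + (fld (nuM a s lam γ) θ - fld (rhoM l a s lam) θ) - 2 * Real.pi * n =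
          (h θ - 2 * Real.pi * n) + (fld (nuM a s lam γ) θ - fld (rhoM l a s lam) θ) := by ring
        rw [e]
        exact abs_add_le _ _
      linarith
  refine ⟨rhoM l a s lam, nuM a s lam γ, K', finite_of_le hρu, finite_of_le hνu, hK'c, hK'pq, hK'0,
    ?_, ?_, ⟨⋃ k ∈ s, {cp l k - a}, ?_, ?_⟩, ?_, hρu, hνu, ?_, ?_⟩
  · apply fsum_zero
    intro k hk
    rw [Measure.dirac_apply' _ hK'c.isClosed.isOpen_compl.measurableSet]
    apply indicator_of_notMem
    rw [hK']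
    simp only [mem_compl_iff, not_not]
    exact mem_biUnion hk (Or.inl rfl)
  · apply fsum_zero
    intro k hk
    refine measure_mono_null ?_ (hγC k)
    apply compl_subset_compl.2
    rw [hK']
    intro x hx
    exact mem_biUnion hk (Or.inr hx)
  · exact s.countable_toSet.biUnion (fun k _ => countable_singleton _)
  · apply fsum_zero
    intro k hk
    rw [Measure.dirac_apply' _ (s.measurableSet_biUnion
      (fun k _ => measurableSet_singleton _)).compl]
    apply indicator_of_notMem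
    simp only [mem_compl_iff, not_not]
    exact mem_biUnion hk rfl
  · intro x
    apply fsum_zero
    intro k _
    exact hγa k x
  · rw [← hN]
    intro θ hθ
    rcases hNsub hθ with h1 | h1
    · exact hB h1.1
    · exact (hVU h1.1).1
  · rw [← hN]
    have h1 : volume.real N ≤ volume.real (bad h K ε₁ \ V) + volume.real (V \ ⋃ k ∈ s, W k) := by
      refine (measureReal_mono hNsub ?_).trans (measureReal_union_le _ _)
      apply measure_union_ne_top
      · exact ((measure_mono sdiff_subset).trans_lt (bad_fin h K ε₁)).ne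
      · exact ((measure_mono sdiff_subset).trans_lt hVfin.lt_top).ne
    have h2 : volume.real (bad h K ε₁ \ V) ≤ η / 4 := by
      refine (measureReal_mono (sdiff_subset_sdiff_right hB'V) ?_).trans hv1
      exact ((measure_mono sdiff_subset).trans_lt (bad_fin h K ε₁)).ne
    have h3 : volume.real (V \ ⋃ k ∈ s, W k) = volume.real V - s.card * (2 * κ₁ * a) := by
      refine vol_diff hVfin s (fun k hk => (hWJ k).trans (hJV k hk)) ?_ ?_ ?_
      · intro k _
        rw [hW]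
        exact measurableSet_Ioo
      · intro k _
        rw [hW, Real.volume_real_Ioo_of_le]
        · ring
        · have : 0 < κ₁ * a := by positivity
          linarith
      · intro j _ k _ hjk
        exact (J_disj hl hjk).mono (hWJ j) (hWJ k)
    have h4 : s.card * (2 * κ₁ * a) = 2 * κ₁ * η₀ * (s.card * l) := by
      rw [hadef]
      ring
    have h5 : 2 * κ₁ * η₀ * volume.real B' ≤ 2 * κ₁ * η₀ * (s.card * l) :=
      mul_le_mul_of_nonneg_left hcardlow (by positivity)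
    have h6 : (1 - 2 * κ₁ * η₀) * volume.real B' ≤ (1 - 2 * κ₁ * η₀) * volume.real (bad h K ε₁) := by
      apply mul_le_mul_of_nonneg_left hB'vol
      linarith only [hκle]
    have h7 : (1 - 2 * κ₁ * η₀) * volume.real B' = volume.real B' - 2 * κ₁ * η₀ * volume.real B' := by
      ring
    linarith only [h1, h2, h3, h4, h5, h6, h7, hv2, hη]

end Pool.Agent.MP_12605b_an
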