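import Pool.Agent.MP_12605b_an.Local2

/-!
The greedy step: on a bad set one can add dipoles of small total mass which repair a fixed
fraction of the bad set.
-/

set_option autoImplicit false

open MeasureTheory Set Filter Topology

namespace Pool.Agent.MP_12605b_an

/-- Grid interval. -/
def J (l : ℝ) (k : ℕ) : Set ℝ := Ico ((k : ℝ) * l) (((k : ℝ) + 1) * l)

/-- Grid midpoint. -/
noncomputable def cp (l : ℝ) (k : ℕ) : ℝ := ((k : ℝ) + 1/2) * l

lemma J_disj {l : ℝ} (hl : 0 < l) {j k : ℕ} (hjk : j ≠ k) : Disjoint (J l j) (J l k) := by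
  rw [Set.disjoint_left]
  intro x hx hx'
  unfold J at hx hx'
  rcases lt_or_gt_of_ne hjk with h | h
  · have h1 : (j : ℝ) + 1 ≤ k := by exact_mod_cast h
    have : ((j : ℝ) + 1) * l ≤ k * l := mul_le_mul_of_nonneg_right h1 hl.le
    linarith [hx.2, hx'.1]
  · have h1 : (k : ℝ) + 1 ≤ j := by exact_mod_cast h
    have : ((k : ℝ) + 1) * l ≤ j * l := mul_le_mul_of_nonneg_right h1 hl.le
    linarith [hx.1, hx'.2]

lemma cp_sub (l : ℝ) (j k : ℕ) : cp l j - cp l k = ((j : ℝ) - k) * l := by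
  unfold cp
  ring

/-- distances on the grid -/
lemma grid_far {l a θ u κ : ℝ} (hl : 0 < l) (ha : 0 < a) (hal : a ≤ l / 8) (hκ : κ ≤ 1/2) {j k : ℕ}
    (hjk : j ≠ k) (hθ : |θ - cp l k| ≤ κ * a) (hu : u ∈ Icc (cp l j - a) (cp l j + 2 * a)) :
    |(j : ℝ) - k| * l / 2 ≤ |u - θ| := by
  have h1 : 1 ≤ |(j : ℝ) - k| := by
    have : (j : ℤ) - k ≠ 0 := by omega
    have h2 := Int.one_le_abs this
    have h3 : ((|(j : ℤ) - k| : ℤ) : ℝ) = |(j : ℝ) - k| := by push_cast; rfl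
    rw [← h3]
    exact_mod_cast h2
  have h2 : |(j : ℝ) - k| * l = |cp l j - cp l k| := by
    rw [cp_sub, abs_mul, abs_of_pos hl]
  have h3 : |u - cp l j| ≤ 2 * a := by
    rw [abs_le]
    constructor
    · linarith [hu.1]
    · linarith [hu.2]
  have h4 : |cp l j - cp l k| ≤ |u - cp l j| + |u - θ| + |θ - cp l k| := by
    have e : cp l j - cp l k = -(u - cp l j) + (u - θ) + (θ - cp l k) := by ring
    rw [e]
    refine (abs_add_le _ _).trans ?_
    have := abs_add_le (-(u - cp l j)) (u - θ)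
    rw [abs_neg] at this
    linarith
  have h5 : κ * a ≤ a / 2 := by nlinarith
  have h6 : l ≤ |(j : ℝ) - k| * l := by nlinarith
  linarith

/-- Finite family of dipoles. -/
noncomputable def rhoM (l a : ℝ) (s : Finset ℕ) (lam : ℕ → ℝ) : Measure ℝ :=
  ∑ k ∈ s, ENNReal.ofReal (dm (lam k) a) • Measure.dirac (cp l k - a)

noncomputable def nuM (a : ℝ) (s : Finset ℕ) (lam : ℕ → ℝ) (γ : ℕ → Measure ℝ) : Measure ℝ :=
  ∑ k ∈ s, ENNReal.ofReal (dm (lam k) a) • γ k

lemma fld_finset_sum {ι : Type*} (s : Finset ι) (μ : ι → Measure ℝ) (θ : ℝ)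
    (h : ∀ i ∈ s, Integrable (fun t => ck (t - θ)) (μ i)) :
    fld (∑ i ∈ s, μ i) θ = ∑ i ∈ s, fld (μ i) θ := by
  unfold fld
  exact integral_finsetSum_measure h

lemma fld_smul (c : ℝ) (hc : 0 ≤ c) (μ : Measure ℝ) (θ : ℝ) :
    fld (ENNReal.ofReal c • μ) θ = c * fld μ θ := by
  unfold fld
  rw [integral_smul_measure, ENNReal.toReal_ofReal hc, smul_eq_mul]

lemma fld_dirac (x θ : ℝ) : fld (Measure.dirac x) θ = ck (x - θ) := by
  unfold fld
  exact integral_dirac _ _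

lemma dipole_fld {l a θ : ℝ} (ha : 0 < a) (ha1 : a ≤ 1) {s : Finset ℕ} {lam : ℕ → ℝ}
    (hlam : ∀ k, 0 ≤ lam k) {γ : ℕ → Measure ℝ}
    (hint : ∀ k ∈ s, Integrable (fun t => ck (t - θ)) (γ k)) :
    fld (nuM a s lam γ) θ - fld (rhoM l a s lam) θ =
      ∑ k ∈ s, dm (lam k) a * (fld (γ k) θ - ck (cp l k - a - θ)) := by
  unfold nuM rhoM
  rw [fld_finset_sum, fld_finset_sum, ← Finset.sum_sub_distrib]
  · apply Finset.sum_congr rfl
    intro k _
    rw [fld_smul _ (dm_nonneg ha ha1 (hlam k)), fld_smul _ (dm_nonneg ha ha1 (hlam k)), fld_dirac]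
    ring
  · intro k _
    refine Integrable.smul_measure ?_ ENNReal.ofReal_ne_top
    exact integrable_dirac (by simp)
  · intro k hk
    exact (hint k hk).smul_measure ENNReal.ofReal_ne_top

end Pool.Agent.MP_12605b_an
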