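import Pool.Agent.MP_12605b_an.Greedy

/-!
The grid cells meeting a compact set.
-/

set_option autoImplicit false

open MeasureTheory Set Filter Topology

namespace Pool.Agent.MP_12605b_an

/-- Grid cells meeting `B`. -/
noncomputable def cells (l : ℝ) (B : Set ℝ) : Finset ℕ :=
  @Finset.filter ℕ (fun k => (J l k ∩ B).Nonempty) (Classical.decPred _)
    (Finset.range (⌈2 * Real.pi / l⌉₊ + 1))

lemma mem_cells {l : ℝ} {B : Set ℝ} {k : ℕ} (h : k ∈ cells l B) : (J l k ∩ B).Nonempty := by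
  simp only [cells, Finset.mem_filter] at h
  exact h.2

lemma J_vol {l : ℝ} (hl : 0 < l) (k : ℕ) : volume.real (J l k) = l := by
  unfold J
  rw [measureReal_def, Real.volume_Ico, ENNReal.toReal_ofReal]
  · ring
  · nlinarith

lemma J_meas (l : ℝ) (k : ℕ) : MeasurableSet (J l k) := measurableSet_Ico

lemma cells_cover {l : ℝ} (hl : 0 < l) {B : Set ℝ} (hB : B ⊆ Ioo 0 (2 * Real.pi)) :
    B ⊆ ⋃ k ∈ cells l B, J l k := by
  intro x hx
  have hx1 := hB hx
  have h0 : 0 ≤ x / l := by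
    apply div_nonneg hx1.1.le hl.le
  have h1 : x ∈ J l ⌊x / l⌋₊ := by
    unfold J
    constructor
    · have := Nat.floor_le h0
      rwa [le_div_iff₀ hl] at this
    · have := Nat.lt_floor_add_one (x / l)
      rwa [div_lt_iff₀ hl] at this
  refine mem_biUnion (x := ⌊x / l⌋₊) ?_ h1
  unfold cells
  simp only [Finset.coe_filter, Set.mem_ofPred_eq, Finset.mem_range]
  refine ⟨?_, ⟨x, h1, hx⟩⟩
  rw [Nat.lt_succ_iff]
  apply Nat.floor_le_ceil _ |>.trans' 
  apply Nat.floor_le_floor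
  gcongr
  exact hx1.2.le

lemma cells_sub {l δ : ℝ} (hlδ : l ≤ δ) {B : Set ℝ} {k : ℕ} (hk : k ∈ cells l B) :
    J l k ⊆ Metric.cthickening δ B := by
  obtain ⟨x, hx, hxB⟩ := mem_cells hk
  intro y hy
  refine Metric.mem_cthickening_of_dist_le y x δ B hxB ?_
  rw [Real.dist_eq, abs_le]
  unfold J at hx hy
  have h1 : ((k:ℝ) + 1) * l = k * l + l := by ring
  constructor
  · linarith [hx.2, hy.1]
  · linarith [hx.1, hy.2]

lemma cells_lower {l : ℝ} (hl : 0 < l) {B : Set ℝ} (hB : B ⊆ Ioo 0 (2 * Real.pi)) :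
    volume.real B ≤ (cells l B).card * l := by
  have h1 : volume.real B ≤ volume.real (⋃ k ∈ cells l B, J l k) := by
    refine measureReal_mono (cells_cover hl hB) ?_
    refine (lt_of_le_of_lt (measure_biUnion_finset_le _ _) ?_).ne
    refine ENNReal.sum_lt_top.2 (fun k _ => ?_)
    unfold J
    rw [Real.volume_Ico]
    exact ENNReal.ofReal_lt_top
  refine h1.trans ((measureReal_biUnion_finset_le _ _).trans ?_)
  rw [Finset.sum_congr rfl (fun k _ => J_vol hl k)]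
  simp

lemma card_upper {V : Set ℝ} (hV : volume V ≠ ⊤) (s : Finset ℕ) {W : ℕ → Set ℝ} {w : ℝ}
    (hW : ∀ k ∈ s, W k ⊆ V) (hm : ∀ k ∈ s, MeasurableSet (W k)) (hw : ∀ k ∈ s, volume.real (W k) = w)
    (hd : ∀ j ∈ s, ∀ k ∈ s, j ≠ k → Disjoint (W j) (W k)) :
    volume.real (⋃ k ∈ s, W k) = s.card * w := by
  rw [measureReal_biUnion_finset (fun j hj k hk hjk => hd j hj k hk hjk) hm
    (fun k hk => ((measure_mono (hW k hk)).trans_lt hV.lt_top).ne)]
  rw [Finset.sum_congr rfl hw]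
  simp

lemma card_upper' {V : Set ℝ} (hV : volume V ≠ ⊤) (s : Finset ℕ) {W : ℕ → Set ℝ} {w : ℝ}
    (hW : ∀ k ∈ s, W k ⊆ V) (hm : ∀ k ∈ s, MeasurableSet (W k)) (hw : ∀ k ∈ s, volume.real (W k) = w)
    (hd : ∀ j ∈ s, ∀ k ∈ s, j ≠ k → Disjoint (W j) (W k)) :
    s.card * w ≤ volume.real V := by
  rw [← card_upper hV s hW hm hw hd]
  apply measureReal_mono _ hV
  exact iUnion₂_subset hW

lemma vol_diff {V : Set ℝ} (hV : volume V ≠ ⊤) (s : Finset ℕ) {W : ℕ → Set ℝ} {w : ℝ}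
    (hW : ∀ k ∈ s, W k ⊆ V) (hm : ∀ k ∈ s, MeasurableSet (W k)) (hw : ∀ k ∈ s, volume.real (W k) = w)
    (hd : ∀ j ∈ s, ∀ k ∈ s, j ≠ k → Disjoint (W j) (W k)) :
    volume.real (V \ ⋃ k ∈ s, W k) = volume.real V - s.card * w := by
  rw [← card_upper hV s hW hm hw hd]
  exact measureReal_sdiff (iUnion₂_subset hW) (Finset.measurableSet_biUnion _ hm) hV

end Pool.Agent.MP_12605b_an
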