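import Mathlib

/-!
The Herglotz kernel, the singular inner function of a finite measure, and the boundary field.
-/

set_option autoImplicit false

open MeasureTheory Set Filter Topology

namespace Pool.Agent.MP_12605b_an

/-- The Herglotz kernel. -/
noncomputable def ker (z : ℂ) (t : ℝ) : ℂ :=
  (Complex.exp ((t : ℂ) * Complex.I) + z) / (Complex.exp ((t : ℂ) * Complex.I) - z)

/-- The singular inner function of a measure. -/
noncomputable def SI (μ : Measure ℝ) (z : ℂ) : ℂ := Complex.exp (-∫ t, ker z t ∂μ)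

/-- The real boundary kernel. -/
noncomputable def ck (s : ℝ) : ℝ := Real.cos (s / 2) / Real.sin (s / 2)

/-- The boundary field of a measure. -/
noncomputable def fld (μ : Measure ℝ) (θ : ℝ) : ℝ := ∫ t, ck (t - θ) ∂μ

lemma norm_e (t : ℝ) : ‖Complex.exp ((t : ℂ) * Complex.I)‖ = 1 := Complex.norm_exp_ofReal_mul_I t

lemma den_lower (z : ℂ) (t : ℝ) : 1 - ‖z‖ ≤ ‖Complex.exp ((t : ℂ) * Complex.I) - z‖ := by
  have := norm_sub_norm_le (Complex.exp ((t : ℂ) * Complex.I)) z
  rw [norm_e] at this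
  exact this

lemma den_ne {z : ℂ} (hz : ‖z‖ < 1) (t : ℝ) : Complex.exp ((t : ℂ) * Complex.I) - z ≠ 0 := by
  have := den_lower z t
  intro h
  rw [h, norm_zero] at this
  linarith

lemma ker_cont {z : ℂ} (hz : ‖z‖ < 1) : Continuous (ker z) := by
  unfold ker
  refine Continuous.div ?_ ?_ (fun t => den_ne hz t)
  · fun_prop
  · fun_prop

lemma ker_bound {z : ℂ} (hz : ‖z‖ < 1) (t : ℝ) : ‖ker z t‖ ≤ 2 / (1 - ‖z‖) := by
  unfold ker
  rw [norm_div]
  have h1 : ‖Complex.exp ((t : ℂ) * Complex.I) + z‖ ≤ 2 := by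
    have := norm_add_le (Complex.exp ((t : ℂ) * Complex.I)) z
    rw [norm_e] at this
    linarith
  have h2 := den_lower z t
  have h3 : 0 < 1 - ‖z‖ := by linarith
  exact div_le_div₀ (by norm_num) h1 h3 h2

lemma ker_int {z : ℂ} (hz : ‖z‖ < 1) (μ : Measure ℝ) [IsFiniteMeasure μ] : Integrable (ker z) μ := by
  refine Integrable.of_bound (ker_cont hz).aestronglyMeasurable (2 / (1 - ‖z‖)) ?_
  exact Eventually.of_forall (fun t => ker_bound hz t)

lemma ker_re_nonneg {z : ℂ} (hz : ‖z‖ < 1) (t : ℝ) : 0 ≤ (ker z t).re := by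
  unfold ker
  set w := Complex.exp ((t : ℂ) * Complex.I) with hw
  have hw1 : ‖w‖ = 1 := norm_e t
  have h1 : ((w + z) / (w - z)).re = (1 - ‖z‖^2) / ‖w - z‖^2 := by
    rw [Complex.div_re]
    have hn : Complex.normSq (w - z) = ‖w - z‖^2 := Complex.normSq_eq_norm_sq _
    rw [hn]
    have e1 : ‖w‖^2 = w.re * w.re + w.im * w.im := by
      rw [← Complex.normSq_eq_norm_sq, Complex.normSq_apply]
    have e2 : ‖z‖^2 = z.re * z.re + z.im * z.im := by
      rw [← Complex.normSq_eq_norm_sq, Complex.normSq_apply]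
    rw [← add_div]
    congr 1
    simp only [Complex.add_re, Complex.sub_re, Complex.add_im, Complex.sub_im]
    rw [e2]
    rw [hw1] at e1
    linarith
  rw [h1]
  apply div_nonneg
  · nlinarith [norm_nonneg z]
  · positivity

lemma SI_norm_le {z : ℂ} (hz : ‖z‖ < 1) (μ : Measure ℝ) [IsFiniteMeasure μ] : ‖SI μ z‖ ≤ 1 := by
  unfold SI
  rw [Complex.norm_exp]
  rw [Real.exp_le_one_iff]
  rw [Complex.neg_re]
  have h : (∫ t, ker z t ∂μ).re = ∫ t, (ker z t).re ∂μ := by
    have := integral_re (ker_int hz μ)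
    simpa using this.symm
  rw [h]
  have := integral_nonneg (μ := μ) (f := fun t => (ker z t).re) (fun t => ker_re_nonneg hz t)
  linarith

lemma SI_add {z : ℂ} (hz : ‖z‖ < 1) (μ ν : Measure ℝ) [IsFiniteMeasure μ] [IsFiniteMeasure ν] :
    SI (μ + ν) z = SI μ z * SI ν z := by
  unfold SI
  rw [integral_add_measure (ker_int hz μ) (ker_int hz ν), neg_add, Complex.exp_add]

lemma SI_zero (z : ℂ) : SI 0 z = 1 := by
  simp [SI]

end Pool.Agent.MP_12605b_an
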