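import Pool.Agent.MP_12605b_an.Kernel

/-!
Analyticity, boundary values, continuity of the field, and estimates for the real kernel.
-/

set_option autoImplicit false

open MeasureTheory Set Filter Topology

namespace Pool.Agent.MP_12605b_an

lemma int_ker_diff (μ : Measure ℝ) [IsFiniteMeasure μ] {z : ℂ} (hz : ‖z‖ < 1) :
    DifferentiableAt ℂ (fun w => ∫ t, ker w t ∂μ) z := by
  obtain ⟨r, hr1, hr2⟩ := exists_between hz
  have hr0 : 0 < 1 - r := by linarith
  have hs : Metric.ball (0 : ℂ) r ∈ 𝓝 z :=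
    Metric.isOpen_ball.mem_nhds (by simpa using hr1)
  let F' : ℂ → ℝ → ℂ := fun w t =>
    2 * Complex.exp ((t : ℂ) * Complex.I) / (Complex.exp ((t : ℂ) * Complex.I) - w)^2
  have hF'c : ∀ w : ℂ, ‖w‖ < 1 → Continuous (F' w) := by
    intro w hw
    refine Continuous.div (by fun_prop) (by fun_prop) ?_
    intro t
    exact pow_ne_zero 2 (den_ne hw t)
  have := hasDerivAt_integral_of_dominated_loc_of_deriv_le (μ := μ) (F := ker) (F' := F')
    (bound := fun _ => 2 / (1 - r)^2) hs ?_ (ker_int hz μ) ?_ ?_ ?_ ?_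
  · exact this.2.differentiableAt
  · filter_upwards [hs] with w hw
    have hw1 : ‖w‖ < 1 := by
      have : ‖w‖ < r := by simpa using hw
      linarith
    exact (ker_cont hw1).aestronglyMeasurable
  · exact (hF'c z hz).aestronglyMeasurable
  · refine Eventually.of_forall (fun t w hw => ?_)
    have hw1 : ‖w‖ < r := by simpa using hw
    simp only [F']
    rw [norm_div, norm_pow, norm_mul, norm_e]
    have h1 := den_lower w t
    have h2 : 1 - r ≤ ‖Complex.exp ((t : ℂ) * Complex.I) - w‖ := by linarith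
    have h3 : (1 - r)^2 ≤ ‖Complex.exp ((t : ℂ) * Complex.I) - w‖^2 := by
      apply pow_le_pow_left₀ hr0.le h2
    refine div_le_div₀ (by norm_num) (by norm_num) (by positivity) h3
  · exact integrable_const _
  · refine Eventually.of_forall (fun t w hw => ?_)
    have hw1 : ‖w‖ < r := by simpa using hw
    have hne := den_ne (show ‖w‖ < 1 by linarith) t
    have h1 : HasDerivAt (fun w : ℂ => Complex.exp ((t : ℂ) * Complex.I) + w) 1 w := by
      simpa using (hasDerivAt_id w).const_add (Complex.exp ((t : ℂ) * Complex.I))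
    have h2 : HasDerivAt (fun w : ℂ => Complex.exp ((t : ℂ) * Complex.I) - w) (-1) w := by
      simpa using (hasDerivAt_id w).const_sub (Complex.exp ((t : ℂ) * Complex.I))
    have h3 := h1.div h2 hne
    refine h3.congr_deriv ?_
    simp only [F']
    congr 1
    ring

lemma SI_diff (μ : Measure ℝ) [IsFiniteMeasure μ] {z : ℂ} (hz : ‖z‖ < 1) :
    DifferentiableAt ℂ (SI μ) z := by
  unfold SI
  exact (int_ker_diff μ hz).neg.cexp

lemma ker_boundary (t θ : ℝ) (h : Real.sin ((t - θ) / 2) ≠ 0) :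
    ker (Complex.exp ((θ : ℂ) * Complex.I)) t = -Complex.I * (ck (t - θ) : ℂ) := by
  unfold ker ck
  set m : ℂ := ((t : ℂ) + θ) / 2 with hm
  set h' : ℂ := ((t : ℂ) - θ) / 2 with hh
  have e1 : Complex.exp ((t : ℂ) * Complex.I) =
      Complex.exp (m * Complex.I) * (Complex.cos h' + Complex.sin h' * Complex.I) := by
    rw [← Complex.exp_mul_I, ← Complex.exp_add]
    congr 1
    rw [hm, hh]
    ring
  have e2 : Complex.exp ((θ : ℂ) * Complex.I) =
      Complex.exp (m * Complex.I) * (Complex.cos h' - Complex.sin h' * Complex.I) := by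
    have : Complex.cos h' - Complex.sin h' * Complex.I = Complex.exp (-h' * Complex.I) := by
      rw [Complex.exp_mul_I, Complex.cos_neg, Complex.sin_neg]
      ring
    rw [this, ← Complex.exp_add]
    congr 1
    rw [hm, hh]
    ring
  have hs : Complex.sin h' ≠ 0 := by
    have : Complex.sin h' = ((Real.sin ((t - θ) / 2) : ℝ) : ℂ) := by
      rw [hh]
      push_cast
      rfl
    rw [this]
    exact_mod_cast h
  have hce : Complex.exp (m * Complex.I) ≠ 0 := Complex.exp_ne_zero _
  have c1 : ((Real.cos ((t - θ) / 2) / Real.sin ((t - θ) / 2) : ℝ) : ℂ) =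
      Complex.cos h' / Complex.sin h' := by
    rw [hh]
    push_cast
    rfl
  rw [c1, e1, e2]
  have n1 : Complex.exp (m * Complex.I) * (Complex.cos h' + Complex.sin h' * Complex.I) +
      Complex.exp (m * Complex.I) * (Complex.cos h' - Complex.sin h' * Complex.I) =
      Complex.exp (m * Complex.I) * (2 * Complex.cos h') := by ring
  have n2 : Complex.exp (m * Complex.I) * (Complex.cos h' + Complex.sin h' * Complex.I) -
      Complex.exp (m * Complex.I) * (Complex.cos h' - Complex.sin h' * Complex.I) =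
      Complex.exp (m * Complex.I) * (2 * Complex.sin h' * Complex.I) := by ring
  rw [n1, n2]
  have hI : Complex.I ≠ 0 := Complex.I_ne_zero
  have hI2 : Complex.I^2 = -1 := Complex.I_sq
  field_simp
  rw [hI2]
  ring

lemma sin_half_ne {t θ : ℝ} (ht : t ∈ Ioo 0 (2 * Real.pi)) (hθ : θ ∈ Icc 0 (2 * Real.pi))
    (hne : t ≠ θ) : Real.sin ((t - θ) / 2) ≠ 0 := by
  intro h
  rw [Real.sin_eq_zero_iff] at h
  obtain ⟨n, hn⟩ := h
  have hpi := Real.pi_pos
  have h1 : (n : ℝ) * Real.pi < Real.pi := by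
    rw [hn]
    linarith [ht.2, hθ.1]
  have h2 : -Real.pi < (n : ℝ) * Real.pi := by
    rw [hn]
    linarith [ht.1, hθ.2]
  have h3 : (n : ℝ) < 1 := by
    by_contra hc
    push Not at hc
    nlinarith
  have h4 : (-1 : ℝ) < n := by
    by_contra hc
    push Not at hc
    nlinarith
  have h5 : n = 0 := by
    have a1 : n < 1 := by exact_mod_cast h3
    have a2 : -1 < n := by exact_mod_cast h4
    omega
  rw [h5] at hn
  simp at hn
  apply hne
  linarith

lemma sep {K L : Set ℝ} (hK : IsCompact K) (hL : IsCompact L) (hKs : K ⊆ Ioo 0 (2 * Real.pi))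
    (hLs : L ⊆ Icc 0 (2 * Real.pi)) (hd : Disjoint K L) :
    ∃ c > 0, ∀ t ∈ K, ∀ θ ∈ L, c ≤ |Real.sin ((t - θ) / 2)| := by
  rcases (K ×ˢ L).eq_empty_or_nonempty with he | hne
  · refine ⟨1, one_pos, fun t ht θ hθ => ?_⟩
    have : (t, θ) ∈ K ×ˢ L := ⟨ht, hθ⟩
    rw [he] at this
    exact absurd this (notMem_empty _)
  · have hc : ContinuousOn (fun p : ℝ × ℝ => |Real.sin ((p.1 - p.2) / 2)|) (K ×ˢ L) := by
      fun_prop
    obtain ⟨p, hp, hmin⟩ := (hK.prod hL).exists_isMinOn hne hc
    refine ⟨|Real.sin ((p.1 - p.2) / 2)|, ?_, ?_⟩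
    · apply abs_pos.2
      apply sin_half_ne (hKs hp.1) (hLs hp.2)
      intro h
      exact disjoint_left.1 hd hp.1 (h ▸ hp.2)
    · intro t ht θ hθ
      have h1 := isMinOn_iff.1 hmin (t, θ) (Set.mk_mem_prod ht hθ)
      simpa using h1

lemma ck_bound {s c : ℝ} (hc : 0 < c) (h : c ≤ |Real.sin (s / 2)|) : |ck s| ≤ 1 / c := by
  unfold ck
  rw [abs_div]
  exact div_le_div₀ zero_le_one (Real.abs_cos_le_one _) hc h

lemma ck_sub {s s' : ℝ} (h : Real.sin (s / 2) ≠ 0) (h' : Real.sin (s' / 2) ≠ 0) :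
    ck s - ck s' = Real.sin ((s' - s) / 2) / (Real.sin (s / 2) * Real.sin (s' / 2)) := by
  unfold ck
  rw [div_sub_div _ _ h h']
  congr 1
  rw [sub_div, Real.sin_sub]
  ring

lemma ck_sub_le {s s' c c' : ℝ} (hc : 0 < c) (hc' : 0 < c') (h : c ≤ |Real.sin (s / 2)|)
    (h' : c' ≤ |Real.sin (s' / 2)|) : |ck s - ck s'| ≤ |s - s'| / (2 * c * c') := by
  have h0 : Real.sin (s / 2) ≠ 0 := abs_pos.1 (lt_of_lt_of_le hc h)
  have h0' : Real.sin (s' / 2) ≠ 0 := abs_pos.1 (lt_of_lt_of_le hc' h')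
  rw [ck_sub h0 h0', abs_div, abs_mul]
  have h1 : |Real.sin ((s' - s) / 2)| ≤ |s - s'| / 2 := by
    have h2 : |Real.sin ((s' - s) / 2)| ≤ |(s' - s) / 2| := Real.abs_sin_le_abs
    rw [abs_div, abs_two, abs_sub_comm] at h2
    exact h2
  have h3 : c * c' ≤ |Real.sin (s / 2)| * |Real.sin (s' / 2)| :=
    mul_le_mul h h' hc'.le (abs_nonneg _)
  calc |Real.sin ((s' - s) / 2)| / (|Real.sin (s / 2)| * |Real.sin (s' / 2)|)
      ≤ (|s - s'| / 2) / (c * c') := div_le_div₀ (by positivity) h1 (by positivity) h3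
    _ = |s - s'| / (2 * c * c') := by
      rw [div_div]
      congr 1
      ring

/-- Jordan type lower bound. -/
lemma sin_half_lower {s : ℝ} (h : |s| ≤ Real.pi) : |s| / Real.pi ≤ |Real.sin (s / 2)| := by
  have hpi := Real.pi_pos
  have h1 := Real.mul_le_sin (x := |s| / 2) (by positivity) (by linarith)
  have h2 : Real.sin (|s| / 2) ≤ |Real.sin (s / 2)| := by
    rcases le_total 0 s with hs | hs
    · rw [abs_of_nonneg hs]
      exact le_abs_self _
    · rw [abs_of_nonpos hs, neg_div, Real.sin_neg]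
      exact neg_le_abs _
  refine le_trans (le_of_eq ?_) (h1.trans h2)
  field_simp

end Pool.Agent.MP_12605b_an
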