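import Pool.Agent.MP_12605b_an.Kernel2

/-!
Continuity of the boundary field off the support, and radial limits there.
-/

set_option autoImplicit false

open MeasureTheory Set Filter Topology

namespace Pool.Agent.MP_12605b_an

lemma ck_meas : Measurable ck := by
  unfold ck
  fun_prop

lemma ae_mem {μ : Measure ℝ} {K : Set ℝ} (h : μ Kᶜ = 0) : ∀ᵐ t ∂μ, t ∈ K := by
  rw [ae_iff]
  exact h

lemma ck_integrable {μ : Measure ℝ} [IsFiniteMeasure μ] {K : Set ℝ} (hμ : μ Kᶜ = 0) {θ c : ℝ}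
    (hc : 0 < c) (h : ∀ t ∈ K, c ≤ |Real.sin ((t - θ) / 2)|) :
    Integrable (fun t => ck (t - θ)) μ := by
  refine Integrable.of_bound (C := 1 / c) ?_ ?_
  · exact (ck_meas.comp (measurable_id.sub_const θ)).aestronglyMeasurable
  · filter_upwards [ae_mem hμ] with t ht
    rw [Real.norm_eq_abs]
    exact ck_bound hc (h t ht)

lemma ck_integrable' {μ : Measure ℝ} [IsFiniteMeasure μ] {K : Set ℝ} (hK : IsCompact K)
    (hKs : K ⊆ Ioo 0 (2 * Real.pi)) (hμ : μ Kᶜ = 0) {θ : ℝ} (hθ : θ ∈ Icc 0 (2 * Real.pi))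
    (hθK : θ ∉ K) : Integrable (fun t => ck (t - θ)) μ := by
  obtain ⟨c, hc, h⟩ := sep hK (isCompact_singleton (x := θ)) hKs (by simpa using hθ)
    (by simpa using hθK)
  exact ck_integrable hμ hc (fun t ht => h t ht θ rfl)

lemma fld_cont {μ : Measure ℝ} [IsFiniteMeasure μ] {K : Set ℝ} (hK : IsCompact K)
    (hKs : K ⊆ Ioo 0 (2 * Real.pi)) (hμ : μ Kᶜ = 0) :
    ContinuousOn (fld μ) (Ioo 0 (2 * Real.pi) \ K) := by
  intro θ hθ
  apply ContinuousAt.continuousWithinAt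
  have hopen : IsOpen (Ioo 0 (2 * Real.pi) \ K) := isOpen_Ioo.sdiff hK.isClosed
  obtain ⟨δ, hδ, hball⟩ := Metric.nhds_basis_closedBall.mem_iff.1 (hopen.mem_nhds hθ)
  obtain ⟨c, hc, h⟩ := sep hK (isCompact_closedBall θ δ) hKs
    (fun x hx => Ioo_subset_Icc_self (hball hx).1)
    (disjoint_left.2 (fun x hx hx' => (hball hx').2 hx))
  unfold fld
  refine continuousAt_of_dominated (bound := fun _ => 1 / c) ?_ ?_ (integrable_const _) ?_
  · exact Eventually.of_forall (fun θ' => (ck_meas.comp (measurable_id.sub_const θ')).aestronglyMeasurable)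
  · filter_upwards [Metric.closedBall_mem_nhds θ hδ] with θ' hθ'
    filter_upwards [ae_mem hμ] with t ht
    rw [Real.norm_eq_abs]
    exact ck_bound hc (h t ht θ' hθ')
  · filter_upwards [ae_mem hμ] with t ht
    have h1 := h t ht θ (Metric.mem_closedBall_self hδ.le)
    have h2 : Real.sin ((t - θ) / 2) ≠ 0 := abs_pos.1 (lt_of_lt_of_le hc h1)
    unfold ck
    refine ContinuousAt.div (by fun_prop) (by fun_prop) h2

lemma norm_half (w ζ : ℂ) (hζ : ‖ζ‖ = 1) (hw : ‖w‖ = 1) {r : ℝ} (hr : 0 ≤ r) (hr1 : r ≤ 1) :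
    ‖w - ζ‖ ≤ 2 * ‖w - r * ζ‖ := by
  have h1 : ‖w - ζ‖ ≤ ‖w - r * ζ‖ + ‖r * ζ - ζ‖ := by
    have := norm_add_le (w - r * ζ) (r * ζ - ζ)
    simpa using this
  have h2 : ‖(r : ℂ) * ζ - ζ‖ = 1 - r := by
    have : (r : ℂ) * ζ - ζ = ((r - 1 : ℝ) : ℂ) * ζ := by push_cast; ring
    rw [this, norm_mul, hζ, mul_one, Complex.norm_real, Real.norm_eq_abs, abs_of_nonpos (by linarith)]
    ring
  have h3 : 1 - r ≤ ‖w - r * ζ‖ := by
    have := norm_sub_norm_le w (r * ζ)
    rw [hw, norm_mul, hζ, mul_one, Complex.norm_real, Real.norm_eq_abs, abs_of_nonneg hr] at this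
    exact this
  linarith

lemma e_sub_norm (t θ : ℝ) : ‖Complex.exp ((t : ℂ) * Complex.I) - Complex.exp ((θ : ℂ) * Complex.I)‖
    = 2 * |Real.sin ((t - θ) / 2)| := by
  have e1 : Complex.exp ((t : ℂ) * Complex.I) - Complex.exp ((θ : ℂ) * Complex.I) =
      Complex.exp ((((t + θ) / 2 : ℝ) : ℂ) * Complex.I) *
        ((2 * Real.sin ((t - θ) / 2) : ℝ) * Complex.I) := by
    have a1 : Complex.exp ((t : ℂ) * Complex.I) = Complex.exp ((((t + θ) / 2 : ℝ) : ℂ) * Complex.I) *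
        Complex.exp ((((t - θ) / 2 : ℝ) : ℂ) * Complex.I) := by
      rw [← Complex.exp_add]
      congr 1
      push_cast
      ring
    have a2 : Complex.exp ((θ : ℂ) * Complex.I) = Complex.exp ((((t + θ) / 2 : ℝ) : ℂ) * Complex.I) *
        Complex.exp (-(((t - θ) / 2 : ℝ) : ℂ) * Complex.I) := by
      rw [← Complex.exp_add]
      congr 1
      push_cast
      ring
    rw [a1, a2, ← mul_sub]
    congr 1
    rw [Complex.exp_mul_I, Complex.exp_mul_I, Complex.cos_neg, Complex.sin_neg]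
    push_cast
    ring
  rw [e1, norm_mul, norm_e, one_mul, norm_mul, Complex.norm_I, mul_one, Complex.norm_real,
    Real.norm_eq_abs, abs_mul, abs_two]

lemma int_ker_tendsto {μ : Measure ℝ} [IsFiniteMeasure μ] {K : Set ℝ} (hK : IsCompact K)
    (hKs : K ⊆ Ioo 0 (2 * Real.pi)) (hμ : μ Kᶜ = 0) {θ : ℝ} (hθ : θ ∈ Icc 0 (2 * Real.pi))
    (hθK : θ ∉ K) :
    Tendsto (fun r : ℝ => ∫ t, ker (r * Complex.exp ((θ : ℂ) * Complex.I)) t ∂μ) (𝓝[<] 1)
      (𝓝 (-Complex.I * (fld μ θ : ℂ))) := by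
  obtain ⟨c, hc, h⟩ := sep hK (isCompact_singleton (x := θ)) hKs (by simpa using hθ)
    (by simpa using hθK)
  have hint : ∫ t, (-Complex.I * (ck (t - θ) : ℂ)) ∂μ = -Complex.I * (fld μ θ : ℂ) := by
    rw [integral_const_mul]
    congr 1
    unfold fld
    exact integral_ofReal
  rw [← hint]
  have hIoo : Ioo (0:ℝ) 1 ∈ 𝓝[<] (1:ℝ) := Ioo_mem_nhdsLT one_pos
  refine tendsto_integral_filter_of_dominated_convergence (fun _ => 2 / c) ?_ ?_
    (integrable_const _) ?_
  · filter_upwards [hIoo] with r hr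
    have hn : ‖(r : ℂ) * Complex.exp ((θ : ℂ) * Complex.I)‖ < 1 := by
      rw [norm_mul, norm_e, mul_one, Complex.norm_real, Real.norm_eq_abs, abs_of_pos hr.1]
      exact hr.2
    exact (ker_cont hn).aestronglyMeasurable
  · filter_upwards [hIoo] with r hr
    filter_upwards [ae_mem hμ] with t ht
    have h1 := h t ht θ rfl
    have h2 := norm_half (Complex.exp ((t : ℂ) * Complex.I)) (Complex.exp ((θ : ℂ) * Complex.I))
      (norm_e θ) (norm_e t) hr.1.le hr.2.le
    rw [e_sub_norm] at h2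
    unfold ker
    rw [norm_div]
    have h3 : ‖Complex.exp ((t : ℂ) * Complex.I) + (r : ℂ) * Complex.exp ((θ : ℂ) * Complex.I)‖ ≤ 2 := by
      have := norm_add_le (Complex.exp ((t : ℂ) * Complex.I)) ((r : ℂ) * Complex.exp ((θ : ℂ) * Complex.I))
      rw [norm_e, norm_mul, norm_e, mul_one, Complex.norm_real, Real.norm_eq_abs, abs_of_pos hr.1] at this
      linarith [hr.2]
    exact div_le_div₀ (by norm_num) h3 hc (by linarith)
  · filter_upwards [ae_mem hμ] with t ht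
    have h1 := h t ht θ rfl
    have h2 : Real.sin ((t - θ) / 2) ≠ 0 := abs_pos.1 (lt_of_lt_of_le hc h1)
    rw [← ker_boundary t θ h2]
    have hne : Complex.exp ((t : ℂ) * Complex.I) - Complex.exp ((θ : ℂ) * Complex.I) ≠ 0 := by
      rw [← norm_pos_iff, e_sub_norm]
      have : 0 < |Real.sin ((t - θ) / 2)| := lt_of_lt_of_le hc h1
      positivity
    have hcont : ContinuousAt (fun r : ℝ => ker ((r : ℂ) * Complex.exp ((θ : ℂ) * Complex.I)) t) 1 := by
      unfold ker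
      refine ContinuousAt.div (by fun_prop) (by fun_prop) ?_
      simpa using hne
    have := hcont.tendsto.mono_left (nhdsWithin_le_nhds (s := Iio 1))
    simpa using this

lemma SI_tendsto {μ : Measure ℝ} [IsFiniteMeasure μ] {K : Set ℝ} (hK : IsCompact K)
    (hKs : K ⊆ Ioo 0 (2 * Real.pi)) (hμ : μ Kᶜ = 0) {θ : ℝ} (hθ : θ ∈ Icc 0 (2 * Real.pi))
    (hθK : θ ∉ K) :
    Tendsto (fun r : ℝ => SI μ (r * Complex.exp ((θ : ℂ) * Complex.I))) (𝓝[<] 1)
      (𝓝 (Complex.exp ((fld μ θ : ℂ) * Complex.I))) := by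
  unfold SI
  have h := (int_ker_tendsto hK hKs hμ hθ hθK).neg
  have h2 := (Complex.continuous_exp.tendsto _).comp h
  have e : Complex.exp (-(-Complex.I * (fld μ θ : ℂ))) = Complex.exp ((fld μ θ : ℂ) * Complex.I) := by
    congr 1
    ring
  rw [e] at h2
  exact h2

end Pool.Agent.MP_12605b_an
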