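import Pool.Agent.MP_12605b_an.Atom

/-!
Lemma A: completing a discrete measure by a small discrete measure so that its singular inner
function is uniformly close to a continuous one.
-/

set_option autoImplicit false

open MeasureTheory Set Filter Topology
open scoped ENNReal

namespace Pool.Agent.MP_12605b_an

lemma decomp {α : Measure ℝ} (hf : IsFiniteMeasure α) {D : Set ℝ} (hD : D.Countable)
    (hα : α Dᶜ = 0) :
    α = Measure.sum (fun x : D => ENNReal.ofReal (α.real {x.1}) • Measure.dirac x.1) := by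
  ext S hS
  rw [Measure.sum_apply _ hS]
  have h1 : α S = α (⋃ x ∈ D, ({x} ∩ S)) := by
    apply le_antisymm
    · calc α S ≤ α ((⋃ x ∈ D, ({x} ∩ S)) ∪ Dᶜ) := by
            apply measure_mono
            intro x hx
            by_cases hxD : x ∈ D
            · left
              exact mem_biUnion hxD ⟨rfl, hx⟩
            · right
              exact hxD
        _ ≤ α (⋃ x ∈ D, ({x} ∩ S)) + α Dᶜ := measure_union_le _ _
        _ = α (⋃ x ∈ D, ({x} ∩ S)) := by rw [hα, add_zero]
    · apply measure_mono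
      exact iUnion₂_subset (fun x _ => inter_subset_right)
  rw [h1, measure_biUnion hD]
  · congr 1
    ext x
    rw [Measure.smul_apply, Measure.dirac_apply' _ hS, smul_eq_mul, measureReal_def,
      ENNReal.ofReal_toReal (measure_ne_top _ _)]
    by_cases hx : x.1 ∈ S
    · rw [indicator_of_mem hx, singleton_inter_of_mem hx]
      simp
    · rw [indicator_of_notMem hx, singleton_inter_of_notMem hx]
      simp
  · intro x _ y _ hxy
    refine Disjoint.mono inter_subset_left inter_subset_left ?_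
    exact disjoint_singleton.2 hxy
  · intro x _
    exact (measurableSet_singleton x).inter hS

lemma tsum_atoms_le {α : Measure ℝ} (hf : IsFiniteMeasure α) {D : Set ℝ} (hD : D.Countable)
    (hα : α Dᶜ = 0) : ∑' x : D, ENNReal.ofReal (α.real {x.1}) = α univ := by
  conv_rhs => rw [decomp hf hD hα]
  rw [Measure.sum_apply _ MeasurableSet.univ]
  congr 1
  ext x
  simp

theorem lemmaA {α : Measure ℝ} (hα : Disc α) {ε : ℝ} (hε : 0 < ε) :
    ∃ ρ ν : Measure ℝ, Disc ρ ∧ Cts ν ∧ ρ univ ≤ ENNReal.ofReal ε ∧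
      ν univ ≤ α univ + ENNReal.ofReal ε ∧
      ∀ z : ℂ, ‖z‖ < 1 → ‖SI (α + ρ) z - SI ν z‖ ≤ ε := by
  obtain ⟨hf, hI, D₀, hD₀, hαD₀⟩ := hα
  obtain ⟨D, hDdef⟩ : ∃ D : Set ℝ, D = D₀ ∩ Ioo 0 (2 * Real.pi) := ⟨_, rfl⟩
  have hD : D.Countable := hDdef ▸ hD₀.mono inter_subset_left
  have hDI : D ⊆ Ioo 0 (2 * Real.pi) := hDdef ▸ inter_subset_right
  have hαD : α Dᶜ = 0 := by
    rw [hDdef, compl_inter]
    exact le_antisymm ((measure_union_le _ _).trans (by rw [hαD₀, hI, add_zero])) (zero_le)
  have hdec := decomp hf hD hαD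
  have hc : Countable D := hD.to_subtype
  have henc : Encodable D := hD.toEncodable
  obtain ⟨ε', hε', c, hsum, hcε⟩ := posSumOfEncodable hε D
  choose ρ ν h1 h2 h3 h4 h5 using fun x : D =>
    atom_lemma (hDI x.2) (measureReal_nonneg (μ := α) (s := {x.1})) (hε' x)
  have hρu : Measure.sum ρ univ ≤ ENNReal.ofReal ε :=
    (sum_univ_le (fun i => (hε' i).le) hsum h3).trans (ENNReal.ofReal_le_ofReal hcε)
  have hρf := finite_of_le hρu
  have hνu : Measure.sum ν univ ≤ α univ + ENNReal.ofReal ε := by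
    rw [Measure.sum_apply _ MeasurableSet.univ]
    calc ∑' x, ν x univ ≤ ∑' x : D, (ENNReal.ofReal (α.real {x.1}) + ENNReal.ofReal (ε' x)) := by
          apply ENNReal.tsum_le_tsum
          intro x
          rw [← ENNReal.ofReal_add measureReal_nonneg (hε' x).le]
          exact h4 x
      _ = α univ + ENNReal.ofReal c := by
          rw [ENNReal.tsum_add, tsum_atoms_le hf hD hαD, ← hsum.tsum_eq,
            ENNReal.ofReal_tsum_of_nonneg (fun i => (hε' i).le) hsum.summable]
      _ ≤ α univ + ENNReal.ofReal ε := by gcongr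
  have hνf : IsFiniteMeasure (Measure.sum ν) :=
    ⟨lt_of_le_of_lt hνu (ENNReal.add_lt_top.2 ⟨measure_lt_top _ _, ENNReal.ofReal_lt_top⟩)⟩
  refine ⟨Measure.sum ρ, Measure.sum ν, Disc_sum h1 hρf, Cts_sum h2 hνf, hρu, hνu, ?_⟩
  intro z hz
  have e : α + Measure.sum ρ =
      Measure.sum (fun x : D => ENNReal.ofReal (α.real {x.1}) • Measure.dirac x.1 + ρ x) := by
    rw [← Measure.sum_add_sum, ← hdec]
  have hfin : IsFiniteMeasure (α + Measure.sum ρ) := inferInstance
  rw [e] at hfin ⊢
  exact (SI_sum_diff hfin hνf hz hsum (fun i => (hε' i).le) (fun x => h5 x z hz)).trans hcε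

end Pool.Agent.MP_12605b_an
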