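import Pool.Agent.MP_12605b_an.Cauchy
import Pool.Agent.MP_12605b_an.Cantor

/-!
Local estimates for a dipole of the boundary kernel.
-/

set_option autoImplicit false

open MeasureTheory Set Filter Topology

namespace Pool.Agent.MP_12605b_an

lemma ck_neg (s : ℝ) : ck (-s) = - ck s := by
  unfold ck
  rw [neg_div, Real.cos_neg, Real.sin_neg, div_neg]

lemma ck_pos {a : ℝ} (ha : 0 < a) (ha1 : a ≤ 1) : 1 / a ≤ ck a := by
  have hpi := Real.pi_gt_three
  have h1 : 0 < Real.sin (a / 2) := Real.sin_pos_of_pos_of_lt_pi (by linarith) (by linarith)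
  have h2 : Real.sin (a/2) ≤ a/2 := Real.sin_le (by linarith)
  have h3 : 1 - (a/2)^2/2 ≤ Real.cos (a/2) := Real.one_sub_sq_div_two_le_cos
  have h4 : (1:ℝ)/2 ≤ Real.cos (a/2) := by nlinarith
  unfold ck
  rw [div_le_div_iff₀ ha h1]
  nlinarith

/-- The mass of a dipole producing phase `lam` at the midpoint. -/
noncomputable def dm (lam a : ℝ) : ℝ := lam / (2 * ck a)

lemma dm_nonneg {lam a : ℝ} (ha : 0 < a) (ha1 : a ≤ 1) (hl : 0 ≤ lam) : 0 ≤ dm lam a := by
  have h := ck_pos ha ha1
  have : 0 < 1 / a := by positivity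
  unfold dm
  apply div_nonneg hl
  linarith

lemma dm_le {lam a : ℝ} (ha : 0 < a) (ha1 : a ≤ 1) (hl2 : lam ≤ 2 * Real.pi) :
    dm lam a ≤ Real.pi * a := by
  have h := ck_pos ha ha1
  have h0 : 0 < 1 / a := by positivity
  unfold dm
  rw [div_le_iff₀ (by linarith)]
  have h1 : 1 ≤ a * ck a := by
    have := mul_le_mul_of_nonneg_left h ha.le
    rwa [mul_one_div_cancel ha.ne'] at this
  have hpi := Real.pi_pos
  have h2 : 2 * Real.pi * 1 ≤ 2 * Real.pi * (a * ck a) :=
    mul_le_mul_of_nonneg_left h1 (by positivity)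
  linarith

lemma own_est {lam a s κ : ℝ} (ha : 0 < a) (ha1 : a ≤ 1) (hl : 0 ≤ lam) (hl2 : lam ≤ 2 * Real.pi)
    (hκ : κ ≤ 1/2) (hs : |s| ≤ κ * a) :
    |dm lam a * (ck (a - s) - ck (-a - s)) - lam| ≤ 2 * Real.pi^3 * κ := by
  have hpi := Real.pi_gt_three
  have hck := ck_pos ha ha1
  have hckpos : 0 < ck a := lt_of_lt_of_le (by positivity) hck
  have hsa : |s| ≤ a/2 := by nlinarith
  have hs1 := abs_le.1 hsa
  have e1 : ck (-a - s) = - ck (a + s) := by
    rw [← ck_neg]
    congr 1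
    ring
  have e2 : dm lam a * (2 * ck a) = lam := by
    unfold dm
    field_simp
  have hlow : ∀ u : ℝ, a/2 ≤ u → u ≤ 3*a/2 → (a/2)/Real.pi ≤ |Real.sin (u/2)| := by
    intro u hu1 hu2
    have h1 := sin_half_lower (s := u) (by rw [abs_of_pos (by linarith)]; linarith)
    rw [abs_of_pos (by linarith : 0 < u)] at h1
    refine le_trans ?_ h1
    gcongr
  have ha' : a/Real.pi ≤ |Real.sin (a/2)| := by
    have h1 := sin_half_lower (s := a) (by rw [abs_of_pos (by linarith)]; linarith)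
    rwa [abs_of_pos ha] at h1
  have hc1 : 0 < (a/2)/Real.pi := by positivity
  have hc2 : 0 < a/Real.pi := by positivity
  have d1 : |ck (a - s) - ck a| ≤ |s| * Real.pi^2 / a^2 := by
    have := ck_sub_le hc1 hc2 (hlow (a - s) (by linarith) (by linarith)) ha'
    have e : |a - s - a| = |s| := by
      rw [show a - s - a = -s by ring, abs_neg]
    rw [e] at this
    refine this.trans (le_of_eq ?_)
    field_simp
  have d2 : |ck (a + s) - ck a| ≤ |s| * Real.pi^2 / a^2 := by
    have := ck_sub_le hc1 hc2 (hlow (a + s) (by linarith) (by linarith)) ha'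
    have e : |a + s - a| = |s| := by
      rw [show a + s - a = s by ring]
    rw [e] at this
    refine this.trans (le_of_eq ?_)
    field_simp
  have e3 : dm lam a * (ck (a - s) - ck (-a - s)) - lam =
      dm lam a * ((ck (a - s) - ck a) + (ck (a + s) - ck a)) := by
    rw [e1]
    linear_combination e2
  rw [e3, abs_mul, abs_of_nonneg (dm_nonneg ha ha1 hl)]
  have h3 : |(ck (a - s) - ck a) + (ck (a + s) - ck a)| ≤ 2 * (|s| * Real.pi^2 / a^2) := by
    refine (abs_add_le _ _).trans ?_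
    linarith
  have h4 : |s| * Real.pi^2 / a^2 ≤ κ * Real.pi^2 / a := by
    rw [div_le_div_iff₀ (by positivity) ha]
    have : |s| * Real.pi^2 * a ≤ κ * a * Real.pi^2 * a := by gcongr
    nlinarith
  calc dm lam a * |(ck (a - s) - ck a) + (ck (a + s) - ck a)|
      ≤ (Real.pi * a) * (2 * (κ * Real.pi^2 / a)) := by
        apply mul_le_mul (dm_le ha ha1 hl2) (h3.trans (by linarith)) (abs_nonneg _) (by positivity)
    _ = 2 * Real.pi^3 * κ := by
        field_simp

/-- Averages against a probability measure carried by an interval. -/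
lemma avg_bound {γ : Measure ℝ} [IsProbabilityMeasure γ] {C : Set ℝ} (hγ : γ Cᶜ = 0)
    {θ u M : ℝ} (hint : Integrable (fun t => ck (t - θ)) γ)
    (h : ∀ t ∈ C, |ck (t - θ) - u| ≤ M) : |fld γ θ - u| ≤ M := by
  have h1 : fld γ θ - u = ∫ t, (ck (t - θ) - u) ∂γ := by
    rw [integral_sub hint (integrable_const _)]
    simp [fld]
  rw [h1, ← Real.norm_eq_abs]
  have h2 := norm_integral_le_of_norm_le_const (μ := γ) (f := fun t => ck (t - θ) - u) (C := M) (by
    filter_upwards [ae_mem hγ] with t ht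
    rw [Real.norm_eq_abs]
    exact h t ht)
  simpa using h2

/-- Any real is `λ` short of a multiple of `2π` with `λ ∈ [0,2π)`. -/
lemma exists_phase (x : ℝ) : ∃ lam : ℝ, 0 ≤ lam ∧ lam ≤ 2 * Real.pi ∧ ∃ m : ℤ,
    x + lam = 2 * Real.pi * m := by
  have hpi := Real.pi_pos
  refine ⟨2 * Real.pi * ⌈x / (2 * Real.pi)⌉ - x, ?_, ?_, ⌈x / (2 * Real.pi)⌉, by ring⟩
  · have := Int.le_ceil (x / (2 * Real.pi))
    rw [div_le_iff₀ (by positivity)] at this
    linarith
  · have := Int.ceil_lt_add_one (x / (2 * Real.pi))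
    rw [← sub_lt_iff_lt_add, lt_div_iff₀ (by positivity)] at this
    linarith

end Pool.Agent.MP_12605b_an
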