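import Pool.Agent.MP_12605b_an.Local

/-!
Dipole estimates near and far, and the sum over grid neighbours.
-/

set_option autoImplicit false

open MeasureTheory Set Filter Topology

namespace Pool.Agent.MP_12605b_an

/-- Far field of a dipole: mass at `c - a` against a probability measure near `c + a`. -/
lemma far_est {γ : Measure ℝ} [IsProbabilityMeasure γ] {C : Set ℝ} (hγ : γ Cᶜ = 0)
    {c a θ c₀ : ℝ} (ha : 0 < a) (hC : C ⊆ Icc (c + a) (c + 2 * a)) (hc : 0 < c₀)
    (h : ∀ u ∈ Icc (c - a) (c + 2 * a), c₀ ≤ |Real.sin ((u - θ) / 2)|) :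
    |fld γ θ - ck (c - a - θ)| ≤ 3 * a / (2 * c₀ ^ 2) := by
  have h1 : ∀ t ∈ C, c₀ ≤ |Real.sin ((t - θ) / 2)| := by
    intro t ht
    have := hC ht
    exact h t ⟨by linarith [this.1], this.2⟩
  apply avg_bound hγ (ck_integrable hγ hc h1)
  intro t ht
  have hx := h (c - a) ⟨le_refl _, by linarith⟩
  have := ck_sub_le hc hc (h1 t ht) hx
  refine this.trans ?_
  have h2 : |t - θ - (c - a - θ)| ≤ 3 * a := by
    have := hC ht
    rw [abs_le]
    constructor
    · linarith [this.1]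
    · linarith [this.2]
  have e : 2 * c₀ * c₀ = 2 * c₀^2 := by ring
  rw [e]
  gcongr

/-- Field of a dipole in its success window. -/
lemma win_own {γ : Measure ℝ} [IsProbabilityMeasure γ] {C : Set ℝ} (hγ : γ Cᶜ = 0)
    {c a θ κ lam : ℝ} (ha : 0 < a) (ha1 : a ≤ 1) (hl : 0 ≤ lam) (hl2 : lam ≤ 2 * Real.pi)
    (hκ : κ ≤ 1/2) (hC : C ⊆ Icc (c + a) (c + a + κ * a)) (hθ : |θ - c| ≤ κ * a) :
    |dm lam a * (fld γ θ - ck (c - a - θ)) - lam| ≤ 4 * Real.pi^3 * κ := by
  have hpi := Real.pi_gt_three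
  have hκ0 : 0 ≤ κ * a := le_trans (abs_nonneg _) hθ
  have hκ1 : 0 ≤ κ := by
    by_contra hcon
    push Not at hcon
    nlinarith
  have hθa : |θ - c| ≤ a/2 := by nlinarith
  have hθ1 := abs_le.1 hθa
  have hlow : ∀ u ∈ Icc (c + a) (c + a + κ * a), (a/2)/Real.pi ≤ |Real.sin ((u - θ)/2)| := by
    intro u hu
    have hu1 : a/2 ≤ u - θ := by linarith [hu.1]
    have hu2 : u - θ ≤ 2*a := by nlinarith [hu.2]
    have h1 := sin_half_lower (s := u - θ) (by rw [abs_of_pos (by linarith)]; linarith)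
    rw [abs_of_pos (by linarith : 0 < u - θ)] at h1
    refine le_trans ?_ h1
    gcongr
  have hc1 : 0 < (a/2)/Real.pi := by positivity
  have h1 : |fld γ θ - ck (c + a - θ)| ≤ 2 * Real.pi^2 * κ / a := by
    apply avg_bound hγ (ck_integrable hγ hc1 (fun t ht => hlow t (hC ht)))
    intro t ht
    have := ck_sub_le hc1 hc1 (hlow t (hC ht)) (hlow (c + a) ⟨le_refl _, by linarith⟩)
    refine this.trans ?_
    have h2 : |t - θ - (c + a - θ)| ≤ κ * a := by
      have := hC ht
      rw [abs_le]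
      constructor
      · linarith [this.1]
      · linarith [this.2]
    calc |t - θ - (c + a - θ)| / (2 * ((a/2)/Real.pi) * ((a/2)/Real.pi))
        ≤ (κ * a) / (2 * ((a/2)/Real.pi) * ((a/2)/Real.pi)) := by gcongr
      _ = 2 * Real.pi^2 * κ / a := by
        field_simp
  have h2 := own_est (s := θ - c) ha ha1 hl hl2 hκ hθ
  have e1 : a - (θ - c) = c + a - θ := by ring
  have e2 : -a - (θ - c) = c - a - θ := by ring
  rw [e1, e2] at h2
  have e3 : dm lam a * (fld γ θ - ck (c - a - θ)) - lam =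
      dm lam a * (fld γ θ - ck (c + a - θ)) +
      (dm lam a * (ck (c + a - θ) - ck (c - a - θ)) - lam) := by ring
  rw [e3]
  refine (abs_add_le _ _).trans ?_
  have h3 : |dm lam a * (fld γ θ - ck (c + a - θ))| ≤ 2 * Real.pi^3 * κ := by
    rw [abs_mul, abs_of_nonneg (dm_nonneg ha ha1 hl)]
    calc dm lam a * |fld γ θ - ck (c + a - θ)|
        ≤ (Real.pi * a) * (2 * Real.pi^2 * κ / a) := by
          apply mul_le_mul (dm_le ha ha1 hl2) h1 (abs_nonneg _) (by positivity)
      _ = 2 * Real.pi^3 * κ := by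
          field_simp
  linarith

/-- The constant bounding neighbour sums. -/
noncomputable def CZ : ℝ := ∑' i : ℤ, 1 / ((i : ℝ))^2

lemma CZ_summable : Summable (fun i : ℤ => 1 / ((i : ℝ))^2) :=
  Real.summable_one_div_int_pow.2 (by norm_num)

lemma CZ_nonneg : 0 ≤ CZ := tsum_nonneg (fun i => by positivity)

lemma nbr_sum (s : Finset ℕ) (k : ℕ) : ∑ j ∈ s, 1 / ((j : ℝ) - k)^2 ≤ CZ := by
  have h1 : ∑ j ∈ s, 1 / ((j : ℝ) - k)^2 = ∑ i ∈ s.image (fun j : ℕ => (j : ℤ) - k), 1 / ((i : ℝ))^2 := by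
    rw [Finset.sum_image]
    · apply Finset.sum_congr rfl
      intro j _
      push_cast
      rfl
    · intro a _ b _ hab
      simp only at hab
      omega
  rw [h1]
  exact CZ_summable.sum_le_tsum _ (fun i _ => by positivity)

end Pool.Agent.MP_12605b_an
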