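import Pool.Agent.MP_12605b_an.Dipoles

/-!
Preparation for the greedy step: compact core of the bad set, a thin neighbourhood, uniformities.
-/

set_option autoImplicit false

open MeasureTheory Set Filter Topology

namespace Pool.Agent.MP_12605b_an

lemma prep {h : ℝ → ℝ} {K : Set ℝ} {p q ε ε₁ η : ℝ} (hp : 0 < p) (hq : q < 2 * Real.pi)
    (hK : IsCompact K) (hh : ContinuousOn h (Ioo 0 (2 * Real.pi) \ K)) (hε : 0 < ε) (hη : 0 < η)
    (hB : bad h K ε₁ ⊆ Ioo p q) :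
    ∃ (B' V : Set ℝ) (δ c₀ : ℝ), IsCompact B' ∧ IsOpen V ∧ B' ⊆ bad h K ε₁ ∧ V ⊆ Ioo p q \ K ∧
      B' ⊆ V ∧ 0 < δ ∧ 0 < c₀ ∧ Metric.cthickening δ B' ⊆ V ∧
      volume.real (bad h K ε₁ \ B') ≤ η / 4 ∧ volume.real V ≤ volume.real B' + η / 4 ∧
      (∀ x ∈ Metric.cthickening δ B', ∀ y ∈ Metric.cthickening δ B', |x - y| < δ → |h x - h y| ≤ ε) ∧
      (∀ u ∈ Metric.cthickening δ B', ∀ θ ∈ Icc 0 (2 * Real.pi) \ V, c₀ ≤ |Real.sin ((u - θ) / 2)|) := by
  have hη4 : ENNReal.ofReal (η / 4) ≠ 0 := by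
    simp only [ne_eq, ENNReal.ofReal_eq_zero, not_le]
    positivity
  obtain ⟨B', hB'B, hB'c, hB'v⟩ := (bad_meas hK hh ε₁).exists_isCompact_sdiff_lt
    (bad_fin h K ε₁).ne hη4
  obtain ⟨V₀, hV₀, hV₀o, hV₀v⟩ := hB'c.exists_isOpen_lt_add (μ := volume) hη4
  have hpq : Ioo p q ⊆ Ioo 0 (2 * Real.pi) := Ioo_subset_Ioo hp.le hq.le
  have hUo : IsOpen (Ioo p q \ K) := isOpen_Ioo.sdiff hK.isClosed
  have hB'U : B' ⊆ Ioo p q \ K := fun x hx => ⟨hB (hB'B hx), (bad_sub h K ε₁ (hB'B hx)).2⟩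
  set V := V₀ ∩ (Ioo p q \ K) with hVdef
  have hVo : IsOpen V := hV₀o.inter hUo
  have hB'V : B' ⊆ V := subset_inter hV₀ hB'U
  obtain ⟨δ₁, hδ₁, hδ₁V⟩ := hB'c.exists_cthickening_subset_open hVo hB'V
  have hT : IsCompact (Metric.cthickening δ₁ B') := hB'c.cthickening
  have hcont : ContinuousOn h (Metric.cthickening δ₁ B') := by
    apply hh.mono
    intro x hx
    have := hδ₁V hx
    exact ⟨hpq this.2.1, this.2.2⟩
  have huc := hT.uniformContinuousOn_of_continuous hcont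
  rw [Metric.uniformContinuousOn_iff] at huc
  obtain ⟨δ₂, hδ₂, hu⟩ := huc ε hε
  have hL : IsCompact (Icc 0 (2 * Real.pi) \ V) := isCompact_Icc.diff hVo
  obtain ⟨c₀, hc₀, hsep⟩ := sep hT hL (fun x hx => hpq (hδ₁V hx).2.1) sdiff_subset
    (disjoint_left.2 (fun x hx hx' => hx'.2 (hδ₁V hx)))
  have hmono : Metric.cthickening (min δ₁ δ₂) B' ⊆ Metric.cthickening δ₁ B' :=
    Metric.cthickening_mono (min_le_left _ _) _
  refine ⟨B', V, min δ₁ δ₂, c₀, hB'c, hVo, hB'B, inter_subset_right, hB'V, lt_min hδ₁ hδ₂, hc₀,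
    hmono.trans hδ₁V, ?_, ?_, ?_, ?_⟩
  · rw [measureReal_def]
    exact ENNReal.toReal_le_of_le_ofReal (by positivity) hB'v.le
  · rw [measureReal_def, measureReal_def]
    have h1 : volume V ≤ volume B' + ENNReal.ofReal (η / 4) :=
      (measure_mono inter_subset_left).trans hV₀v.le
    have h2 := ENNReal.toReal_mono (ENNReal.add_ne_top.2 ⟨hB'c.measure_lt_top.ne, ENNReal.ofReal_ne_top⟩) h1
    rwa [ENNReal.toReal_add hB'c.measure_lt_top.ne ENNReal.ofReal_ne_top,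
      ENNReal.toReal_ofReal (by positivity)] at h2
  · intro x hx y hy hxy
    have := hu x (hmono hx) y (hmono hy) (by rw [Real.dist_eq]; exact lt_of_lt_of_le hxy (min_le_right _ _))
    rw [Real.dist_eq] at this
    exact this.le
  · intro u hu θ hθ
    exact hsep u (hmono hu) θ hθ

end Pool.Agent.MP_12605b_an
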